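import Pool.Agent.Helper10.AB.GoalsF1

/-! # Project AB (MP_1ef41b_an), module FM, packet DEC -/

open MeasureTheory Set Filter Topology
open scoped ContDiff

noncomputable section

namespace Pool.Agent.Helper70.AB.DEC

open Pool.Agent.Helper24.AB Pool.Agent.Helper10.AB

abbrev QQ : Type := (Fin 4 → ℝ) × (Fin 4 → ℝ)

theorem cyl_convex (a : ℝ) : Convex ℝ (Cyl a) := by
  have h1 : ConvexOn ℝ univ (fun q : QQ => ∑ i, q.1 i ^ 2) := by
    refine ⟨convex_univ, fun x _ y _ α β hα hβ hαβ => ?_⟩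
    simp only [smul_eq_mul, Prod.fst_add, Prod.smul_fst, Pi.add_apply, Pi.smul_apply]
    rw [Finset.mul_sum, Finset.mul_sum, ← Finset.sum_add_distrib]
    refine Finset.sum_le_sum fun i _ => ?_
    have h2 : β = 1 - α := by linarith
    subst h2
    nlinarith [mul_nonneg (mul_nonneg hα hβ) (sq_nonneg (x.1 i - y.1 i))]
  have h2 := h1.convex_le (a ^ 2)
  simpa [Cyl] using h2

theorem sum_cont : Continuous (fun q : QQ => ∑ i, q.1 i ^ 2) := by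
  refine continuous_finsetSum _ fun i _ => ?_
  exact (((continuous_apply i).comp continuous_fst).pow 2)

theorem cyl_ud {a : ℝ} (ha : 0 < a) : UniqueDiffOn ℝ (Cyl a) := by
  refine uniqueDiffOn_convex (cyl_convex a) ⟨0, ?_⟩
  rw [mem_interior]
  refine ⟨{q | (∑ i, q.1 i ^ 2) < a ^ 2},
    fun q (hq : (∑ i, q.1 i ^ 2) < a ^ 2) => (show (∑ i, q.1 i ^ 2) ≤ a ^ 2 from le_of_lt hq),
    isOpen_lt sum_cont continuous_const, ?_⟩
  show (∑ i, (0 : Fin 4 → ℝ) i ^ 2) < a ^ 2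
  simp
  positivity

/-- `(θ, t)` as a vector -/
def vc (θ : Fin 3 → ℝ) (t : ℝ) : Fin 4 → ℝ := ![θ 0, θ 1, θ 2, t]

theorem vc_cont : Continuous (fun x : (Fin 3 → ℝ) × ℝ => vc x.1 x.2) := by
  refine continuous_pi fun i => ?_
  unfold vc
  fin_cases i
  · show Continuous (fun x : (Fin 3 → ℝ) × ℝ => x.1 0)
    exact (continuous_apply 0).comp continuous_fst
  · show Continuous (fun x : (Fin 3 → ℝ) × ℝ => x.1 1)
    exact (continuous_apply 1).comp continuous_fst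
  · show Continuous (fun x : (Fin 3 → ℝ) × ℝ => x.1 2)
    exact (continuous_apply 2).comp continuous_fst
  · exact continuous_snd

theorem vc_der (j : Fin 3) (θ : Fin 3 → ℝ) (t x : ℝ) :
    HasDerivAt (fun x : ℝ => vc (Function.update θ j x) t) (Pi.single j.castSucc 1) x := by
  rw [hasDerivAt_pi]
  intro i
  unfold vc
  fin_cases j <;> fin_cases i <;>
    simp [Function.update, hasDerivAt_id', hasDerivAt_const]

/-- smooth and periodic -/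
structure PN (a : ℝ) (G : QQ → ℂ) : Prop where
  smooth : ContDiffOn ℝ ∞ G (Cyl a)
  per : ∀ ζ : Fin 4 → ℝ, (∑ i, ζ i ^ 2) ≤ a ^ 2 → ∀ t θ k, sl G ζ t (tr2 θ k) = sl G ζ t θ

/-- the derivative with respect to `θ_j` -/
def Dj (a : ℝ) (j : Fin 3) (G : QQ → ℂ) (q : QQ) : ℂ :=
  fderivWithin ℝ G (Cyl a) q (0, Pi.single j.castSucc 1)

theorem sl_der {a : ℝ} {G : QQ → ℂ} (hG : ContDiffOn ℝ ∞ G (Cyl a)) (j : Fin 3)
    {ζ : Fin 4 → ℝ} (hζ : (∑ i, ζ i ^ 2) ≤ a ^ 2) (t : ℝ) (θ : Fin 3 → ℝ) :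
    HasDerivAt (fun x : ℝ => sl G ζ t (Function.update θ j x)) (sl (Dj a j G) ζ t θ) (θ j) := by
  have hm : ∀ v : Fin 4 → ℝ, (ζ, v) ∈ Cyl a := fun v => hζ
  have h1 : HasFDerivWithinAt G (fderivWithin ℝ G (Cyl a) (ζ, vc θ t)) (Cyl a) (ζ, vc θ t) :=
    (hG.differentiableOn (by simp) _ (hm _)).hasFDerivWithinAt
  have h2 : HasDerivAt (fun x : ℝ => ((ζ, vc (Function.update θ j x) t) : QQ))
      (0, Pi.single j.castSucc 1) (θ j) :=
    (hasDerivAt_const (θ j) ζ).prodMk (vc_der j θ t (θ j))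
  have h3 : (ζ, vc θ t) = (fun x : ℝ => ((ζ, vc (Function.update θ j x) t) : QQ)) (θ j) := by
    show _ = (ζ, vc (Function.update θ j (θ j)) t)
    rw [Function.update_eq_self]
  exact h1.comp_hasDerivAt_of_eq (θ j) h2 (Eventually.of_forall fun x => hm _) h3

theorem Dj_PN {a : ℝ} (ha : 0 < a) {G : QQ → ℂ} (hG : PN a G) (j : Fin 3) :
    PN a (Dj a j G) := by
  refine ⟨?_, ?_⟩
  · unfold Dj
    exact (hG.smooth.fderivWithin (cyl_ud ha) (by simp)).clm_apply contDiffOn_const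
  · intro ζ hζ t θ k
    have h1 := sl_der hG.smooth j hζ t (tr2 θ k)
    have h2 := sl_der hG.smooth j hζ t θ
    have h3 : HasDerivAt (fun x : ℝ => sl G ζ t (Function.update θ j (x - 2 * Real.pi * k j)))
        (sl (Dj a j G) ζ t θ) (tr2 θ k j) := by
      have h4 : tr2 θ k j - 2 * Real.pi * k j = θ j := by
        unfold tr2; ring
      rw [← h4] at h2
      exact h2.comp_sub_const (tr2 θ k j) (2 * Real.pi * k j)
    have h5 : (fun x : ℝ => sl G ζ t (Function.update (tr2 θ k) j x)) =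
        fun x : ℝ => sl G ζ t (Function.update θ j (x - 2 * Real.pi * k j)) := by
      funext x
      rw [← hG.per ζ hζ t (Function.update θ j (x - 2 * Real.pi * k j)) k]
      congr 1
      funext i
      by_cases hi : i = j
      · subst hi
        unfold tr2
        rw [Function.update_self, Function.update_self]
        ring
      · unfold tr2
        rw [Function.update_of_ne hi, Function.update_of_ne hi]
    rw [h5] at h1
    exact h1.unique h3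

theorem PN_CPer {a : ℝ} {G : QQ → ℂ} (hG : PN a G) {ζ : Fin 4 → ℝ}
    (hζ : (∑ i, ζ i ^ 2) ≤ a ^ 2) (t : ℝ) : CPer (sl G ζ t) := by
  refine ⟨?_, hG.per ζ hζ t⟩
  have h1 : Continuous (fun θ : Fin 3 → ℝ => ((ζ, vc θ t) : QQ)) :=
    continuous_const.prodMk (vc_cont.comp (continuous_id.prodMk continuous_const))
  exact hG.smooth.continuousOn.comp_continuous h1 fun θ => hζ

theorem T3_vol : volume.real T3 = (2 * Real.pi) ^ 3 := by
  have hpi := Real.pi_pos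
  unfold T3 Measure.real
  rw [Real.volume_pi_Ico]
  simp [ENNReal.toReal_ofReal, hpi.le]

theorem T3_fin : volume T3 < ⊤ := by
  unfold T3
  rw [Real.volume_pi_Ico]
  exact ENNReal.prod_lt_top fun i _ => ENNReal.ofReal_lt_top

theorem tm_le {φ : (Fin 3 → ℝ) → ℂ} {M : ℝ} (hM : ∀ θ ∈ T3, ‖φ θ‖ ≤ M) (J : Fin 3 → ℤ) :
    ‖tm J φ‖ ≤ M := by
  have hpi := Real.pi_pos
  unfold tm
  rw [norm_mul, Complex.norm_real, Real.norm_of_nonneg (by positivity)]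
  have h1 : ‖∫ θ in T3, φ θ * Complex.exp (-(Complex.I * (Jd J θ : ℝ)))‖ ≤ M * volume.real T3 := by
    refine norm_setIntegral_le_of_norm_le_const T3_fin fun θ hθ => ?_
    rw [norm_mul]
    have h2 : ‖Complex.exp (-(Complex.I * (Jd J θ : ℝ)))‖ = 1 := by
      rw [Complex.norm_exp]
      simp
    rw [h2, mul_one]
    exact hM θ hθ
  rw [T3_vol] at h1
  refine (mul_le_mul_of_nonneg_left h1 (by positivity)).trans (le_of_eq ?_)
  field_simp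

theorem cpt (a : ℝ) : IsCompact {q : QQ | (∑ i, q.1 i ^ 2) ≤ a ^ 2 ∧
    ∀ i, 0 ≤ q.2 i ∧ q.2 i ≤ 2 * Real.pi} := by
  have h1 : {q : QQ | (∑ i, q.1 i ^ 2) ≤ a ^ 2 ∧ ∀ i, 0 ≤ q.2 i ∧ q.2 i ≤ 2 * Real.pi} =
      {ζ : Fin 4 → ℝ | (∑ i, ζ i ^ 2) ≤ a ^ 2} ×ˢ Set.Icc 0 (fun _ => 2 * Real.pi) := by
    ext q
    simp only [mem_ofPred_eq, mem_prod, mem_Icc, Pi.le_def, Pi.zero_apply]
    constructor
    · rintro ⟨h, h'⟩
      exact ⟨h, fun i => (h' i).1, fun i => (h' i).2⟩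
    · rintro ⟨h, h', h''⟩
      exact ⟨h, fun i => ⟨h' i, h'' i⟩⟩
  rw [h1]
  refine IsCompact.prod ?_ isCompact_Icc
  refine (isCompact_Icc (a := fun _ : Fin 4 => -|a|) (b := fun _ => |a|)).of_isClosed_subset ?_ ?_
  · refine isClosed_le ?_ continuous_const
    exact continuous_finsetSum _ fun i _ => (continuous_apply i).pow 2
  · intro ζ hζ
    have h2 : ∀ i, |ζ i| ≤ |a| := by
      intro i
      have h3 : ζ i ^ 2 ≤ a ^ 2 :=
        (Finset.single_le_sum (f := fun i => ζ i ^ 2) (fun i _ => sq_nonneg (ζ i))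
          (Finset.mem_univ i)).trans hζ
      exact sq_le_sq.1 h3
    exact ⟨fun i => (abs_le.1 (h2 i)).1, fun i => (abs_le.1 (h2 i)).2⟩

theorem PN_bdd {a : ℝ} {G : QQ → ℂ} (hG : PN a G) : ∃ M : ℝ, 0 ≤ M ∧ ∀ (J : Fin 3 → ℤ)
    (ζ : Fin 4 → ℝ) (t : ℝ), (∑ i, ζ i ^ 2) ≤ a ^ 2 → 0 ≤ t → t ≤ 2 * Real.pi →
    ‖tm J (sl G ζ t)‖ ≤ M := by
  obtain ⟨M, hM⟩ := (cpt a).exists_bound_of_continuousOn (f := G)
    (hG.smooth.continuousOn.mono fun q hq => hq.1)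
  refine ⟨max M 0, le_max_right _ _, fun J ζ t hζ h0 h1 => ?_⟩
  refine tm_le (fun θ hθ => (hM (ζ, ![θ 0, θ 1, θ 2, t]) ⟨hζ, ?_⟩).trans (le_max_left _ _)) J
  have h2 : ∀ i, 0 ≤ θ i ∧ θ i ≤ 2 * Real.pi := fun i =>
    ⟨(hθ i (mem_univ i)).1, (hθ i (mem_univ i)).2.le⟩
  intro i
  fin_cases i
  · exact h2 0
  · exact h2 1
  · exact h2 2
  · exact ⟨h0, h1⟩

theorem Dj_iter (hTIB : S_TIB) {a : ℝ} (ha : 0 < a) (j : Fin 3) (N : ℕ) :
    ∀ {G : QQ → ℂ}, PN a G → PN a ((Dj a j)^[N] G) ∧ ∀ (J : Fin 3 → ℤ) (ζ : Fin 4 → ℝ) (t : ℝ),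
      (∑ i, ζ i ^ 2) ≤ a ^ 2 →
      ‖tm J (sl ((Dj a j)^[N] G) ζ t)‖ = |(J j : ℝ)| ^ N * ‖tm J (sl G ζ t)‖ := by
  induction N with
  | zero => intro G hG; exact ⟨hG, by simp⟩
  | succ N ih =>
    intro G hG
    obtain ⟨h1, h2⟩ := ih (Dj_PN ha hG j)
    rw [Function.iterate_succ, Function.comp_apply]
    refine ⟨h1, fun J ζ t hζ => ?_⟩
    rw [h2 J ζ t hζ]
    have h3 := hTIB j (sl G ζ t) (sl (Dj a j G) ζ t) (PN_CPer hG hζ t)
      (PN_CPer (Dj_PN ha hG j) hζ t) (sl_der hG.smooth j hζ t) J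
    rw [h3, norm_mul, norm_mul, Complex.norm_I, one_mul, Complex.norm_intCast]
    ring

theorem decay (hTIB : S_TIB) {a : ℝ} (ha : 0 < a) {G : QQ → ℂ} (hG : PN a G) (N : ℕ) :
    ∃ C : ℝ, 0 ≤ C ∧ ∀ (J : Fin 3 → ℤ) (ζ : Fin 4 → ℝ) (t : ℝ), (∑ i, ζ i ^ 2) ≤ a ^ 2 →
      0 ≤ t → t ≤ 2 * Real.pi → ‖tm J (sl G ζ t)‖ * nJ J ^ N ≤ C := by
  obtain ⟨M, hM0, hM⟩ := PN_bdd hG
  have h1 : ∀ j : Fin 3, ∃ M : ℝ, 0 ≤ M ∧ ∀ (J : Fin 3 → ℤ) (ζ : Fin 4 → ℝ) (t : ℝ),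
      (∑ i, ζ i ^ 2) ≤ a ^ 2 → 0 ≤ t → t ≤ 2 * Real.pi →
      |(J j : ℝ)| ^ N * ‖tm J (sl G ζ t)‖ ≤ M := by
    intro j
    obtain ⟨g1, g2⟩ := Dj_iter hTIB ha j N hG
    obtain ⟨M, hM0, hM⟩ := PN_bdd g1
    refine ⟨M, hM0, fun J ζ t hζ h0 h1 => ?_⟩
    rw [← g2 J ζ t hζ]
    exact hM J ζ t hζ h0 h1
  choose B hB0 hB using h1
  refine ⟨4 ^ N * (M + B 0 + B 1 + B 2), by have := hB0 0; have := hB0 1; have := hB0 2; positivity,
    fun J ζ t hζ h0 h1 => ?_⟩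
  set x := ‖tm J (sl G ζ t)‖ with hx
  have hx0 : 0 ≤ x := norm_nonneg _
  have e0 := hM J ζ t hζ h0 h1
  have e1 := hB 0 J ζ t hζ h0 h1
  have e2 := hB 1 J ζ t hζ h0 h1
  have e3 := hB 2 J ζ t hζ h0 h1
  rw [← hx] at e0 e1 e2 e3
  have hp0 := abs_nonneg (J 0 : ℝ)
  have hp1 := abs_nonneg (J 1 : ℝ)
  have hp2 := abs_nonneg (J 2 : ℝ)
  set m := max (max 1 |(J 0 : ℝ)|) (max |(J 1 : ℝ)| |(J 2 : ℝ)|) with hm
  have hm1 : nJ J ≤ 4 * m := by
    unfold nJ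
    have a1 : 1 ≤ m := (le_max_left _ _).trans (le_max_left _ _)
    have a2 : |(J 0 : ℝ)| ≤ m := (le_max_right _ _).trans (le_max_left _ _)
    have a3 : |(J 1 : ℝ)| ≤ m := (le_max_left _ _).trans (le_max_right _ _)
    have a4 : |(J 2 : ℝ)| ≤ m := (le_max_right _ _).trans (le_max_right _ _)
    linarith
  have hnJ0 : 0 ≤ nJ J := by unfold nJ; positivity
  have hmN : m ^ N ≤ 1 + |(J 0 : ℝ)| ^ N + |(J 1 : ℝ)| ^ N + |(J 2 : ℝ)| ^ N := by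
    have q0 := pow_nonneg hp0 N
    have q1 := pow_nonneg hp1 N
    have q2 := pow_nonneg hp2 N
    rcases max_choice (max 1 |(J 0 : ℝ)|) (max |(J 1 : ℝ)| |(J 2 : ℝ)|) with h | h
    · rw [hm, h]
      rcases max_choice 1 |(J 0 : ℝ)| with h' | h' <;> rw [h']
      · rw [one_pow]; linarith
      · linarith
    · rw [hm, h]
      rcases max_choice |(J 1 : ℝ)| |(J 2 : ℝ)| with h' | h' <;> rw [h'] <;> linarith
  have hfin : nJ J ^ N ≤ 4 ^ N * (1 + |(J 0 : ℝ)| ^ N + |(J 1 : ℝ)| ^ N + |(J 2 : ℝ)| ^ N) := by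
    refine (pow_le_pow_left₀ hnJ0 hm1 N).trans ?_
    rw [mul_pow]
    exact mul_le_mul_of_nonneg_left hmN (by positivity)
  refine (mul_le_mul_of_nonneg_left hfin hx0).trans ?_
  have : x * (4 ^ N * (1 + |(J 0 : ℝ)| ^ N + |(J 1 : ℝ)| ^ N + |(J 2 : ℝ)| ^ N)) =
      4 ^ N * (x + |(J 0 : ℝ)| ^ N * x + |(J 1 : ℝ)| ^ N * x + |(J 2 : ℝ)| ^ N * x) := by ring
  rw [this]
  refine mul_le_mul_of_nonneg_left ?_ (by positivity)
  linarith

theorem WJ_nonneg (J : Fin 3 → ℤ) (t : ℝ) : 0 ≤ WJ J t := by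
  unfold WJ Wf
  positivity

theorem dec (hTQ : S_TQ) (hTIB : S_TIB) (hNICE : S_NICE) (hWW : S_WW) : S_DEC := by
  intro a G ha hG
  obtain ⟨_, _, _, hCP⟩ := hNICE a G ha hG
  obtain ⟨_, _, w3, w4, _, _, _, w8⟩ := hWW
  have hPN : PN a G := ⟨hG.smooth, hG.per⟩
  have h1 : ∀ ζ : Fin 4 → ℝ, (∑ i, ζ i ^ 2) ≤ a ^ 2 → ∀ J t,
      tm J (sl G ζ (t + 2 * Real.pi)) = tm (Jn J) (sl G ζ t) := fun ζ hζ J t =>
    hTQ (sl G ζ t) (sl G ζ (t + 2 * Real.pi)) (hCP ζ hζ t) (hCP ζ hζ _)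
      (fun θ => hG.eqv ζ hζ t θ) J
  refine ⟨h1, fun N => ?_⟩
  obtain ⟨C, hC0, hC⟩ := decay hTIB ha hPN N
  obtain ⟨c, hc, hcW⟩ := w4 (2 * Real.pi)
  refine ⟨(c⁻¹) ^ N * C, fun J ζ t hζ => ?_⟩
  have hbase : ∀ J t, 0 ≤ t → t ≤ 2 * Real.pi → ‖tm J (sl G ζ t)‖ * WJ J t ^ N ≤
      (c⁻¹) ^ N * C := by
    intro J t h0 h2
    have e1 := (hcW J t (by rw [abs_of_nonneg h0]; exact h2)).2
    have e2 : WJ J t ^ N ≤ (c⁻¹ * nJ J) ^ N := pow_le_pow_left₀ (WJ_nonneg J t) e1 N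
    refine (mul_le_mul_of_nonneg_left e2 (norm_nonneg _)).trans ?_
    rw [mul_pow]
    have e3 := hC J ζ t hζ h0 h2
    have : ‖tm J (sl G ζ t)‖ * ((c⁻¹) ^ N * nJ J ^ N) =
        (c⁻¹) ^ N * (‖tm J (sl G ζ t)‖ * nJ J ^ N) := by ring
    rw [this]
    exact mul_le_mul_of_nonneg_left e3 (by positivity)
  have hup : ∀ (k : ℕ) (J : Fin 3 → ℤ) (t : ℝ), ∃ J', tm J (sl G ζ (t + 2 * Real.pi * k)) =
      tm J' (sl G ζ t) ∧ WJ J (t + 2 * Real.pi * k) = WJ J' t := by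
    intro k
    induction k with
    | zero => intro J t; exact ⟨J, by simp, by simp⟩
    | succ k ih =>
      intro J t
      have e : t + 2 * Real.pi * ((k + 1 : ℕ) : ℝ) = t + 2 * Real.pi * k + 2 * Real.pi := by
        push_cast; ring
      rw [e, h1 ζ hζ, w3]
      exact ih (Jn J) t
  have hdn : ∀ (k : ℕ) (J : Fin 3 → ℤ) (t : ℝ), ∃ J', tm J (sl G ζ (t - 2 * Real.pi * k)) =
      tm J' (sl G ζ t) ∧ WJ J (t - 2 * Real.pi * k) = WJ J' t := by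
    intro k
    induction k with
    | zero => intro J t; exact ⟨J, by simp, by simp⟩
    | succ k ih =>
      intro J t
      obtain ⟨J1, hJ1⟩ := w8.2 J
      have e : t - 2 * Real.pi * ((k + 1 : ℕ) : ℝ) + 2 * Real.pi = t - 2 * Real.pi * k := by
        push_cast; ring
      obtain ⟨J', g1, g2⟩ := ih J1 t
      refine ⟨J', ?_, ?_⟩
      · rw [← g1, ← e, h1 ζ hζ, hJ1]
      · rw [← g2, ← e, w3, hJ1]
  have h2pi : 0 < 2 * Real.pi := by positivity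
  set k := ⌊t / (2 * Real.pi)⌋ with hk
  set t0 := t - 2 * Real.pi * k with ht0
  have b1 : 0 ≤ t0 := by
    have := Int.floor_le (t / (2 * Real.pi))
    rw [← hk, le_div_iff₀ h2pi] at this
    rw [ht0]; linarith
  have b2 : t0 ≤ 2 * Real.pi := by
    have := Int.lt_floor_add_one (t / (2 * Real.pi))
    rw [← hk, div_lt_iff₀ h2pi] at this
    rw [ht0]; nlinarith
  obtain ⟨J', g1, g2⟩ : ∃ J', tm J (sl G ζ t) = tm J' (sl G ζ t0) ∧ WJ J t = WJ J' t0 := by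
    rcases Int.eq_nat_or_neg k with ⟨m, hm | hm⟩
    · have e : t = t0 + 2 * Real.pi * (m : ℝ) := by
        rw [ht0, hm]; push_cast; ring
      rw [e]
      exact hup m J t0
    · have e : t = t0 - 2 * Real.pi * (m : ℝ) := by
        rw [ht0, hm]; push_cast; ring
      rw [e]
      exact hdn m J t0
  rw [g1, g2]
  exact hbase J' t0 b1 b2

end Pool.Agent.Helper70.AB.DEC
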