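import Pool.Agent.Helper95.AB.GoalsX

/-! # Project AB (MP_1ef41b_an), module FM, packet FCB -/

open MeasureTheory Set Filter Topology
open scoped ContDiff

noncomputable section

namespace Pool.Agent.Helper70.AB

open Pool.Agent.Helper24.AB Pool.Agent.Helper10.AB Pool.Agent.Helper95.AB

theorem exp_per (n : ℤ) : Complex.exp (-(Complex.I * n * ((2 * Real.pi : ℝ) : ℂ))) = 1 := by
  have : -(Complex.I * n * ((2 * Real.pi : ℝ) : ℂ)) = ((-n : ℤ) : ℂ) * (2 * Real.pi * Complex.I) := by
    push_cast; ring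
  rw [this]
  exact Complex.exp_int_mul_two_pi_mul_I _

theorem per_iter {u : ℝ → ℂ} (hp : ∀ t, u (t + 2 * Real.pi) = u t) (k : ℕ) :
    ∀ t, iteratedDeriv k u (t + 2 * Real.pi) = iteratedDeriv k u t := by
  induction k with
  | zero => simpa using hp
  | succ k ih =>
    intro t
    rw [iteratedDeriv_succ]
    have h1 : (fun t => iteratedDeriv k u (t + 2 * Real.pi)) = iteratedDeriv k u := funext ih
    have h2 := deriv_comp_add_const (iteratedDeriv k u) (2 * Real.pi) t
    rw [← h2, h1]

theorem fcu_deriv {u : ℝ → ℂ} (hu : ContDiff ℝ 1 u) (hp : ∀ t, u (t + 2 * Real.pi) = u t) (n : ℤ) :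
    fcu (deriv u) n = Complex.I * n * fcu u n := by
  have hE : ∀ t : ℝ, HasDerivAt (fun t : ℝ => Complex.exp (-(Complex.I * n * t)))
      (-(Complex.I * n) * Complex.exp (-(Complex.I * n * t))) t := by
    intro t
    have h1 : HasDerivAt (fun t : ℝ => -(Complex.I * n * (t : ℂ))) (-(Complex.I * n)) t := by
      have := ((Complex.ofRealCLM.hasDerivAt (x := t)).const_mul (Complex.I * n)).neg
      exact HasDerivAt.congr_deriv this (by simp)
    exact h1.cexp.congr_deriv (mul_comm _ _)
  have hd : ∀ t : ℝ, HasDerivAt (fun t : ℝ => u t * Complex.exp (-(Complex.I * n * t)))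
      (deriv u t * Complex.exp (-(Complex.I * n * t)) +
        u t * (-(Complex.I * n) * Complex.exp (-(Complex.I * n * t)))) t := fun t =>
    ((hu.differentiable (by simp)) t).hasDerivAt.mul (hE t)
  have hcE : Continuous (fun t : ℝ => Complex.exp (-(Complex.I * n * t))) := by fun_prop
  have hc1 : Continuous (fun t : ℝ => deriv u t * Complex.exp (-(Complex.I * n * t))) :=
    (hu.continuous_deriv le_rfl).mul hcE
  have hc2 : Continuous (fun t : ℝ => u t * (-(Complex.I * n) * Complex.exp (-(Complex.I * n * t)))) :=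
    hu.continuous.mul (continuous_const.mul hcE)
  have hI := intervalIntegral.integral_eq_sub_of_hasDerivAt (a := 0) (b := 2 * Real.pi)
    (fun t _ => hd t) ((hc1.add hc2).intervalIntegrable _ _)
  rw [intervalIntegral.integral_add (hc1.intervalIntegrable _ _) (hc2.intervalIntegrable _ _)] at hI
  have h0 : u (2 * Real.pi) = u 0 := by
    have := hp 0
    rwa [zero_add] at this
  have hb : u (2 * Real.pi) * Complex.exp (-(Complex.I * n * ((2 * Real.pi : ℝ) : ℂ))) -
      u 0 * Complex.exp (-(Complex.I * n * ((0 : ℝ) : ℂ))) = 0 := by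
    rw [exp_per, h0]
    simp
  rw [hb] at hI
  have h3 : ∫ t in (0 : ℝ)..(2 * Real.pi), u t * (-(Complex.I * n) *
      Complex.exp (-(Complex.I * n * t))) =
      -(Complex.I * n) * ∫ t in (0 : ℝ)..(2 * Real.pi), u t * Complex.exp (-(Complex.I * n * t)) := by
    rw [← intervalIntegral.integral_const_mul]
    refine intervalIntegral.integral_congr fun t _ => ?_
    ring
  rw [h3] at hI
  unfold fcu
  linear_combination (((2 * Real.pi)⁻¹ : ℝ) : ℂ) * hI

theorem fcu_iter {u : ℝ → ℂ} (hu : ContDiff ℝ ∞ u) (hp : ∀ t, u (t + 2 * Real.pi) = u t) (n : ℤ)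
    (k : ℕ) : fcu (iteratedDeriv k u) n = (Complex.I * n) ^ k * fcu u n := by
  induction k with
  | zero => simp
  | succ k ih =>
    have h1 : ContDiff ℝ 1 (iteratedDeriv k u) := by
      rw [iteratedDeriv_eq_iterate]
      refine ContDiff.iterate_deriv' 1 k ?_
      have h2 : (((1 + k : ℕ) : ℕ∞) : WithTop ℕ∞) ≤ ((⊤ : ℕ∞) : WithTop ℕ∞) :=
        WithTop.coe_le_coe.2 le_top
      exact hu.of_le (by exact_mod_cast h2)
    rw [iteratedDeriv_succ, fcu_deriv h1 (per_iter hp k), ih]
    ring

theorem fcu_le {v : ℝ → ℂ} {M : ℝ} (h : ∀ t, ‖v t‖ ≤ M) (n : ℤ) : ‖fcu v n‖ ≤ M := by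
  have hpi := Real.pi_pos
  unfold fcu
  rw [norm_mul, Complex.norm_real, Real.norm_of_nonneg (by positivity)]
  have h1 : ‖∫ t in (0 : ℝ)..(2 * Real.pi), v t * Complex.exp (-(Complex.I * n * t))‖ ≤
      M * |2 * Real.pi - 0| := by
    refine intervalIntegral.norm_integral_le_of_norm_le_const fun t _ => ?_
    rw [norm_mul]
    have h2 : ‖Complex.exp (-(Complex.I * n * t))‖ = 1 := by
      rw [Complex.norm_exp]
      simp
    rw [h2, mul_one]
    exact h t
  rw [sub_zero, abs_of_pos (by positivity)] at h1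
  refine (mul_le_mul_of_nonneg_left h1 (by positivity)).trans (le_of_eq ?_)
  field_simp

theorem fcb : S_FCB := by
  intro u hu hp
  have hpi := Real.pi_pos
  have hA : ∀ (k : ℕ) (M : ℝ), (∀ t, ‖iteratedDeriv k u t‖ ≤ M) →
      ∀ n : ℤ, |(n : ℝ)| ^ k * ‖fcu u n‖ ≤ M := by
    intro k M hM n
    have h1 := fcu_le hM n
    rw [fcu_iter hu hp, norm_mul, norm_pow, norm_mul, Complex.norm_I, one_mul,
      Complex.norm_intCast] at h1
    exact h1
  refine ⟨hA, ?_⟩
  have hT : Fact (0 < 2 * Real.pi) := ⟨by positivity⟩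
  have h2i : (((2 : ℕ) : ℕ∞) : WithTop ℕ∞) ≤ ((⊤ : ℕ∞) : WithTop ℕ∞) :=
    WithTop.coe_le_coe.2 le_top
  have hc2 : Continuous (iteratedDeriv 2 u) :=
    hu.continuous_iteratedDeriv 2 h2i
  obtain ⟨M, hM⟩ := (isCompact_Icc (a := (0 : ℝ)) (b := 2 * Real.pi)).exists_bound_of_continuousOn
    hc2.continuousOn
  have hM2 : ∀ t, ‖iteratedDeriv 2 u t‖ ≤ M := by
    intro t
    have hper : Function.Periodic (iteratedDeriv 2 u) (2 * Real.pi) := per_iter hp 2
    obtain ⟨y, hy, hty⟩ := hper.exists_mem_Ico₀ (by positivity) t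
    rw [hty]
    exact hM y ⟨hy.1, hy.2.le⟩
  have hsum : Summable (fun n : ℤ => fcu u n) := by
    refine Summable.of_norm_bounded_eventually (g := fun n : ℤ => M * (1 / (n : ℝ) ^ 2))
      ((Real.summable_one_div_int_pow.2 (by norm_num)).mul_left M) ?_
    have h0 : ∀ᶠ n : ℤ in cofinite, n ≠ 0 := by
      simpa using (Set.finite_singleton (0 : ℤ)).compl_mem_cofinite
    filter_upwards [h0] with n hn
    have h1 := hA 2 M hM2 n
    have h2 : (0 : ℝ) < (n : ℝ) ^ 2 := by positivity
    rw [sq_abs] at h1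
    rw [mul_one_div, le_div_iff₀ h2, mul_comm]
    exact h1
  have hper : Function.Periodic u (2 * Real.pi) := hp
  have hcont : Continuous (hper.lift : AddCircle (2 * Real.pi) → ℂ) :=
    hu.continuous.quotient_liftOn' _
  set f : C(AddCircle (2 * Real.pi), ℂ) := ⟨hper.lift, hcont⟩ with hf
  have hcoef : ∀ n, fourierCoeff f n = fcu u n := by
    intro n
    rw [fourierCoeff_eq_intervalIntegral f n 0, zero_add]
    unfold fcu
    rw [Complex.real_smul]
    congr 1
    · simp
    · refine intervalIntegral.integral_congr fun t _ => ?_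
      simp only [smul_eq_mul]
      rw [fourier_coe_apply, mul_comm]
      have e1 : f (t : AddCircle (2 * Real.pi)) = u t := rfl
      rw [e1]
      congr 2
      push_cast
      have : (Real.pi : ℂ) ≠ 0 := by exact_mod_cast hpi.ne'
      field_simp
  have hs : Summable (fourierCoeff f) := by
    have : fourierCoeff f = fun n => fcu u n := funext hcoef
    rw [this]; exact hsum
  intro t
  have h := has_pointwise_sum_fourier_series_of_summable hs (t : AddCircle (2 * Real.pi))
  have e1 : f (t : AddCircle (2 * Real.pi)) = u t := rfl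
  rw [e1] at h
  have e2 : (fun n : ℤ => fourierCoeff f n • (fourier n (t : AddCircle (2 * Real.pi)) : ℂ)) =
      fun n : ℤ => fcu u n * Complex.exp (Complex.I * n * t) := by
    funext n
    rw [hcoef, smul_eq_mul, fourier_coe_apply]
    congr 2
    push_cast
    have : (Real.pi : ℂ) ≠ 0 := by exact_mod_cast hpi.ne'
    field_simp
  rw [e2] at h
  exact h

end Pool.Agent.Helper70.AB
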