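import Pool.Agent.Helper70.AB.KER1

/-! # Project AB (MP_1ef41b_an), module EMB, packet KER, complex part -/

open Set Filter Topology Polynomial
open scoped ContDiff

noncomputable section

namespace Pool.Agent.Helper70.AB

open Pool.Agent.Helper24.AB Pool.Agent.Helper10.AB

/-- the complex logistic function -/
def Lc (ζ : ℂ) : ℂ := (1 + Complex.exp (-ζ))⁻¹

theorem cos_half {y : ℝ} (hy : |y| < 1) : 1 / 2 ≤ Real.cos y := by
  have h1 := Real.one_sub_sq_div_two_le_cos (x := y)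
  have h2 : y ^ 2 ≤ 1 := by
    rw [← sq_abs]
    exact pow_le_one₀ (abs_nonneg y) hy.le
  linarith

theorem one_le_norm {ζ : ℂ} (hζ : |ζ.im| < 1) : 1 ≤ ‖1 + Complex.exp (-ζ)‖ := by
  have h1 : 1 ≤ (1 + Complex.exp (-ζ)).re := by
    rw [Complex.add_re, Complex.one_re, Complex.exp_re, Complex.neg_im, Real.cos_neg]
    have := mul_pos (Real.exp_pos (-ζ).re) (lt_of_lt_of_le (by norm_num) (cos_half hζ))
    linarith
  exact h1.trans (Complex.re_le_norm _)

theorem Lc_ne {ζ : ℂ} (hζ : |ζ.im| < 1) : 1 + Complex.exp (-ζ) ≠ 0 := by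
  intro h
  have := one_le_norm hζ
  rw [h, norm_zero] at this
  linarith

theorem Lc_norm {ζ : ℂ} (hζ : |ζ.im| < 1) : ‖Lc ζ‖ ≤ 1 := by
  rw [Lc, norm_inv]
  exact inv_le_one_of_one_le₀ (one_le_norm hζ)

theorem Lc_der {ζ : ℂ} (hζ : |ζ.im| < 1) : HasDerivAt Lc (Lc ζ * (1 - Lc ζ)) ζ := by
  have h0 := Lc_ne hζ
  have h1 : HasDerivAt (fun ζ : ℂ => 1 + Complex.exp (-ζ)) (-Complex.exp (-ζ)) ζ := by
    have h2 := ((hasDerivAt_id ζ).neg.cexp).const_add (1 : ℂ)
    simpa using h2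
  have h3 := h1.inv h0
  refine h3.congr_deriv ?_
  unfold Lc
  field_simp
  ring

theorem Lc_real (x : ℝ) : Lc x = (Real.sigmoid x : ℂ) := by
  unfold Lc
  rw [Real.sigmoid_def]
  push_cast
  rfl

theorem aeval_real (q : ℝ[X]) (x : ℝ) : aeval (x : ℂ) q = ((q.eval x : ℝ) : ℂ) := by
  have := Polynomial.aeval_algebraMap_apply ℂ x q
  rw [Polynomial.coe_aeval_eq_eval] at this
  exact this

theorem poly_bdd (q : ℝ[X]) : ∃ C : ℝ, 0 ≤ C ∧ ∀ z : ℂ, ‖z‖ ≤ 1 → ‖aeval z q‖ ≤ C := by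
  obtain ⟨C, hC⟩ := (isCompact_closedBall (0 : ℂ) 1).exists_bound_of_continuousOn
    (f := fun z : ℂ => aeval z q) (by
      have := (fun z => (q.hasDerivAt_aeval z).continuousAt : ∀ z : ℂ, ContinuousAt (fun z : ℂ => aeval z q) z)
      exact (continuous_iff_continuousAt.2 this).continuousOn)
  refine ⟨C, (norm_nonneg _).trans (hC 0 (Metric.mem_closedBall_self zero_le_one)), fun z hz => ?_⟩
  exact hC z (mem_closedBall_zero_iff.2 hz)

/-- the approximation -/
def bq (q : ℝ[X]) (ζ : ℂ) : ℂ := Complex.exp (-Complex.cosh ζ) * aeval (Lc ζ) q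

/-- its derivative -/
def bq' (q : ℝ[X]) (ζ : ℂ) : ℂ :=
  -Complex.sinh ζ * Complex.exp (-Complex.cosh ζ) * aeval (Lc ζ) q +
    Complex.exp (-Complex.cosh ζ) * (aeval (Lc ζ) (derivative q) * (Lc ζ * (1 - Lc ζ)))

theorem bq_der (q : ℝ[X]) {ζ : ℂ} (hζ : |ζ.im| < 1) : HasDerivAt (bq q) (bq' q ζ) ζ := by
  have h1 : HasDerivAt (fun ζ => Complex.exp (-Complex.cosh ζ))
      (Complex.exp (-Complex.cosh ζ) * (-Complex.sinh ζ)) ζ :=
    (Complex.hasDerivAt_cosh ζ).neg.cexp
  have h2 : HasDerivAt (fun ζ => aeval (Lc ζ) q)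
      (aeval (Lc ζ) (derivative q) * (Lc ζ * (1 - Lc ζ))) ζ :=
    (q.hasDerivAt_aeval (Lc ζ)).comp ζ (Lc_der hζ)
  refine (h1.mul h2).congr_deriv ?_
  unfold bq'
  ring

theorem strip_open : IsOpen {ζ : ℂ | |ζ.im| < 1} :=
  isOpen_lt (continuous_abs.comp Complex.continuous_im) continuous_const

theorem Lc_contOn : ContinuousOn Lc {ζ : ℂ | |ζ.im| < 1} := fun _ hζ =>
  (Lc_der hζ).continuousAt.continuousWithinAt

theorem aeval_cont (q : ℝ[X]) : Continuous (fun z : ℂ => aeval z q) :=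
  continuous_iff_continuousAt.2 fun z => (q.hasDerivAt_aeval z).continuousAt

theorem bq'_cont (q : ℝ[X]) : ContinuousOn (bq' q) {ζ : ℂ | |ζ.im| < 1} := by
  unfold bq'
  have h1 := (aeval_cont q).comp_continuousOn Lc_contOn
  have h2 := (aeval_cont (derivative q)).comp_continuousOn Lc_contOn
  have h3 := Lc_contOn
  have h4 : ContinuousOn (fun ζ => Complex.exp (-Complex.cosh ζ)) {ζ : ℂ | |ζ.im| < 1} :=
    Continuous.continuousOn (by fun_prop)
  have h5 : ContinuousOn (fun ζ => -Complex.sinh ζ) {ζ : ℂ | |ζ.im| < 1} :=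
    Continuous.continuousOn (by fun_prop)
  exact ((h5.mul h4).mul h1).add (h4.mul (h2.mul (h3.mul (continuousOn_const.sub h3))))

theorem exp_cosh_norm {ζ : ℂ} (hζ : |ζ.im| < 1) :
    ‖Complex.exp (-Complex.cosh ζ)‖ ≤ Real.exp (-(Real.cosh ζ.re / 2)) := by
  rw [Complex.norm_exp]
  refine Real.exp_le_exp.2 ?_
  have h1 : (Complex.cosh ζ).re = Real.cosh ζ.re * Real.cos ζ.im := by
    conv_lhs => rw [← Complex.re_add_im ζ]
    rw [Complex.cosh_add, Complex.cosh_mul_I, Complex.sinh_mul_I]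
    simp [← Complex.ofReal_cosh, ← Complex.ofReal_sinh, ← Complex.ofReal_cos, ← Complex.ofReal_sin]
  rw [Complex.neg_re, h1]
  have h2 := cos_half hζ
  have h3 := Real.cosh_pos ζ.re
  nlinarith

theorem sinh_norm (ζ : ℂ) : ‖Complex.sinh ζ‖ ≤ Real.cosh ζ.re := by
  rw [Complex.sinh, Real.cosh_eq, norm_div]
  have h1 : ‖Complex.exp ζ - Complex.exp (-ζ)‖ ≤ Real.exp ζ.re + Real.exp (-ζ.re) := by
    refine (norm_sub_le _ _).trans (le_of_eq ?_)
    rw [Complex.norm_exp, Complex.norm_exp, Complex.neg_re]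
  have h2 : ‖(2 : ℂ)‖ = 2 := by simp
  rw [h2]
  exact div_le_div_of_nonneg_right h1 (by norm_num)

theorem bq_good (q : ℝ[X]) : Good (bq q) (bq' q) := by
  refine ⟨fun ζ hζ => bq_der q hζ, bq'_cont q, ?_⟩
  obtain ⟨C1, hC1, h1⟩ := poly_bdd q
  obtain ⟨C2, hC2, h2⟩ := poly_bdd (derivative q)
  refine ⟨4 * C1 + 2 * C2, 1 / 4, by norm_num, fun ζ hζ => ?_⟩
  have hL := Lc_norm hζ
  have hE := exp_cosh_norm hζ
  have hS := sinh_norm ζ
  have hq := h1 _ hL
  have hp := h2 _ hL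
  set c := Real.cosh ζ.re with hc
  have hc1 : 1 ≤ c := Real.one_le_cosh _
  have e1 : Real.exp (-(c / 2)) ≤ Real.exp (-(1 / 4 * c)) := Real.exp_le_exp.2 (by linarith)
  have e2 : c * Real.exp (-(c / 2)) ≤ 4 * Real.exp (-(1 / 4 * c)) := by
    have h3 : c / 4 ≤ Real.exp (c / 4) := by
      have := Real.add_one_le_exp (c / 4)
      linarith
    have h4 : Real.exp (-(c / 2)) = Real.exp (-(1 / 4 * c)) * (Real.exp (c / 4))⁻¹ := by
      rw [← Real.exp_neg, ← Real.exp_add]
      congr 1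
      ring
    have h5 := Real.exp_pos (c / 4)
    have h6 := Real.exp_pos (-(1 / 4 * c))
    rw [h4]
    have h7 : c * (Real.exp (c / 4))⁻¹ ≤ 4 := by
      rw [← div_eq_mul_inv, div_le_iff₀ h5]
      linarith
    nlinarith
  have hE0 := norm_nonneg (Complex.exp (-Complex.cosh ζ))
  have hq0 := norm_nonneg (aeval (Lc ζ) q)
  have hp0 := norm_nonneg (aeval (Lc ζ) (derivative q))
  have hx := Real.exp_pos (-(1 / 4 * c))
  have n1 : ‖bq q ζ‖ ≤ Real.exp (-(c / 2)) * C1 := by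
    rw [bq, norm_mul]
    exact mul_le_mul hE hq hq0 (Real.exp_nonneg _)
  constructor
  · refine n1.trans ?_
    nlinarith [mul_nonneg hC1 hx.le, mul_nonneg hC2 hx.le]
  · have hLL : ‖Lc ζ * (1 - Lc ζ)‖ ≤ 2 := by
      rw [norm_mul]
      have : ‖1 - Lc ζ‖ ≤ 2 := by
        refine (norm_sub_le _ _).trans ?_
        rw [norm_one]; linarith
      nlinarith [norm_nonneg (Lc ζ), norm_nonneg (1 - Lc ζ)]
    have n2 : ‖-Complex.sinh ζ * Complex.exp (-Complex.cosh ζ) * aeval (Lc ζ) q‖ ≤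
        c * Real.exp (-(c / 2)) * C1 := by
      rw [norm_mul, norm_mul, norm_neg]
      refine mul_le_mul (mul_le_mul hS hE hE0 (by linarith)) hq hq0 (by positivity)
    have n3 : ‖Complex.exp (-Complex.cosh ζ) * (aeval (Lc ζ) (derivative q) * (Lc ζ * (1 - Lc ζ)))‖ ≤
        Real.exp (-(c / 2)) * (C2 * 2) := by
      rw [norm_mul, norm_mul (aeval (Lc ζ) (derivative q))]
      refine mul_le_mul hE (mul_le_mul hp hLL (norm_nonneg _) hC2) (by positivity)
        (Real.exp_nonneg _)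
    have n4 := norm_add_le (-Complex.sinh ζ * Complex.exp (-Complex.cosh ζ) * aeval (Lc ζ) q)
      (Complex.exp (-Complex.cosh ζ) * (aeval (Lc ζ) (derivative q) * (Lc ζ * (1 - Lc ζ))))
    rw [bq']
    nlinarith [mul_le_mul_of_nonneg_right e2 hC1, mul_le_mul_of_nonneg_right e1 hC2]

theorem bq_real (q : ℝ[X]) (x : ℝ) :
    bq q x = ((Real.exp (-Real.cosh x) * q.eval (Real.sigmoid x) : ℝ) : ℂ) := by
  rw [bq, Lc_real, aeval_real]
  push_cast
  rfl

theorem bq'_real (q : ℝ[X]) (x : ℝ) :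
    bq' q x = ((-Real.sinh x * Real.exp (-Real.cosh x) * q.eval (Real.sigmoid x) +
      Real.exp (-Real.cosh x) * ((derivative q).eval (Real.sigmoid x) *
        (Real.sigmoid x * (1 - Real.sigmoid x))) : ℝ) : ℂ) := by
  rw [bq', Lc_real, aeval_real, aeval_real]
  push_cast
  rfl

theorem abs_le_cosh (x : ℝ) : |x| ≤ Real.cosh x := by
  rw [← Real.cosh_abs, Real.cosh_eq]
  have h1 := Real.quadratic_le_exp_of_nonneg (abs_nonneg x)
  have h2 := Real.add_one_le_exp (-|x|)
  nlinarith [sq_nonneg (|x| - 1), sq_abs x, sq_nonneg (|x| - 2)]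

theorem exp_abs_le (x : ℝ) : Real.exp |x| ≤ 2 * Real.cosh x := by
  rw [← Real.cosh_abs, Real.cosh_eq]
  have := Real.exp_pos (-|x|)
  linarith

theorem cosh_exp (x : ℝ) : Real.cosh x * Real.exp (-Real.cosh x) ≤ 8 * Real.exp (-|x|) := by
  set c := Real.cosh x with hc
  have hc1 : 1 ≤ c := Real.one_le_cosh _
  have h1 : c / 2 ≤ Real.exp (c / 2) := by
    have := Real.add_one_le_exp (c / 2)
    linarith
  have h2 : Real.exp c = Real.exp (c / 2) * Real.exp (c / 2) := by
    rw [← Real.exp_add]; congr 1; ring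
  have h3 : c * c ≤ 4 * Real.exp c := by
    rw [h2]
    nlinarith
  have h4 := exp_abs_le x
  rw [← hc] at h4
  have h5 := Real.exp_pos c
  have h6 := Real.exp_pos |x|
  rw [Real.exp_neg, Real.exp_neg, ← div_eq_mul_inv, ← div_eq_mul_inv, div_le_div_iff₀ h5 h6]
  nlinarith

theorem ker : S_KER := by
  intro b hb hc ε hε
  set g : ℝ → ℝ := fun x => b x * Real.exp (Real.cosh x) with hg
  have hgs : ContDiff ℝ 1 g := hb.mul (Real.contDiff_exp.comp Real.contDiff_cosh)
  have hgc : HasCompactSupport g := hc.mul_right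
  obtain ⟨p, q, hpq, hq, hp⟩ := real_approx hgs hgc (ε := ε / 16) (by positivity)
  refine ⟨bq q, bq' q, bq_good q, fun x => ?_⟩
  have hbd : HasDerivAt b (deriv b x) x := ((hb.differentiable (by simp)) x).hasDerivAt
  have hgd : deriv g x = deriv b x * Real.exp (Real.cosh x) +
      b x * (Real.exp (Real.cosh x) * Real.sinh x) :=
    (hbd.mul (Real.hasDerivAt_cosh x).exp).deriv
  have hE : Real.exp (-Real.cosh x) * Real.exp (Real.cosh x) = 1 := by
    rw [← Real.exp_add, neg_add_cancel, Real.exp_zero]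
  have hqx := hq x
  have hpx := hp x
  rw [hgd] at hpx
  have hE0 := Real.exp_pos (-Real.cosh x)
  have hx0 := Real.exp_pos (-|x|)
  have hce := cosh_exp x
  have hc1 : 1 ≤ Real.cosh x := Real.one_le_cosh _
  have hss : |Real.sinh x| ≤ Real.cosh x := by
    have h1 := Real.cosh_sq x
    rw [← Real.cosh_abs] at *
    refine abs_le_of_sq_le_sq ?_ (by linarith)
    nlinarith
  rw [bq_real, bq'_real, ← Complex.ofReal_sub, ← Complex.ofReal_sub, Complex.norm_real,
    Complex.norm_real, Real.norm_eq_abs, Real.norm_eq_abs]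
  constructor
  · have h1 : Real.exp (-Real.cosh x) * q.eval (Real.sigmoid x) - b x =
        Real.exp (-Real.cosh x) * (q.eval (Real.sigmoid x) - g x) := by
      rw [hg]
      beta_reduce
      linear_combination (b x) * hE
    rw [h1, abs_mul, abs_of_pos hE0]
    have h2 : Real.exp (-Real.cosh x) * |q.eval (Real.sigmoid x) - g x| ≤
        Real.exp (-Real.cosh x) * (ε / 16) := mul_le_mul_of_nonneg_left hqx hE0.le
    have h3 : Real.exp (-Real.cosh x) ≤ 8 * Real.exp (-|x|) := by nlinarith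
    have h4 := mul_le_mul_of_nonneg_right h3 (show 0 ≤ ε / 16 by positivity)
    nlinarith [mul_pos hε hx0]
  · rw [hpq]
    have h1 : -Real.sinh x * Real.exp (-Real.cosh x) * q.eval (Real.sigmoid x) +
        Real.exp (-Real.cosh x) * (p.eval (Real.sigmoid x) *
          (Real.sigmoid x * (1 - Real.sigmoid x))) - deriv b x =
        Real.exp (-Real.cosh x) * ((-Real.sinh x) * (q.eval (Real.sigmoid x) - g x) +
        (p.eval (Real.sigmoid x) * (Real.sigmoid x * (1 - Real.sigmoid x)) -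
          (deriv b x * Real.exp (Real.cosh x) +
            b x * (Real.exp (Real.cosh x) * Real.sinh x)))) := by
      rw [hg]
      beta_reduce
      linear_combination (deriv b x) * hE
    rw [h1, abs_mul, abs_of_pos hE0]
    have h2 : |(-Real.sinh x) * (q.eval (Real.sigmoid x) - g x) +
        (p.eval (Real.sigmoid x) * (Real.sigmoid x * (1 - Real.sigmoid x)) -
          (deriv b x * Real.exp (Real.cosh x) +
            b x * (Real.exp (Real.cosh x) * Real.sinh x)))| ≤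
        Real.cosh x * (ε / 16) + ε / 16 := by
      refine (abs_add_le _ _).trans (add_le_add ?_ hpx)
      rw [abs_mul, abs_neg]
      exact mul_le_mul hss hqx (abs_nonneg _) (by linarith)
    have h3 := mul_le_mul_of_nonneg_left h2 hE0.le
    refine h3.trans ?_
    have h4 : Real.cosh x * (ε / 16) + ε / 16 ≤ 2 * Real.cosh x * (ε / 16) := by
      nlinarith
    refine (mul_le_mul_of_nonneg_left h4 hE0.le).trans ?_
    nlinarith

end Pool.Agent.Helper70.AB
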