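import Pool.Agent.Helper15.AB.GoalsE

/-! # Project AB (MP_1ef41b_an), module GEO, packet RSM -/

open MeasureTheory Set Filter Topology
open scoped ContDiff

noncomputable section

namespace Pool.Agent.Helper70.AB

open Pool.Agent.Helper24.AB Pool.Agent.Helper15.AB

theorem cyl_open (b : ℝ) : IsOpen {P : V4 | |(P 3).re| < b} :=
  isOpen_lt (continuous_abs.comp (Complex.continuous_re.comp (continuous_apply 3)))
    continuous_const

theorem cyl_open' (b : ℝ) : IsOpen {q : (Fin 4 → ℝ) × (Fin 4 → ℝ) | |q.1 3| < b} :=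
  isOpen_lt (continuous_abs.comp ((continuous_apply 3).comp continuous_fst)) continuous_const

theorem sq3_le (x : Fin 4 → ℝ) : x 3 ^ 2 ≤ ∑ i, x i ^ 2 :=
  Finset.single_le_sum (f := fun i => x i ^ 2) (fun i _ => sq_nonneg (x i)) (Finset.mem_univ 3)

theorem rsm (_hATL : S_ATL) (hXI : S_XI) : S_RSM := by
  intro a A s p hs hp
  have ha := hs.a_pos
  obtain ⟨x1, x2, x3, x4, x5, x6, x7, x8⟩ := hXI a A s p hs hp
  have hr : ∀ P, rfun a A s p P = (∑ i, (XiI a A s p P).1 i ^ 2) - a ^ 2 := by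
    intro P
    have := x6 (XiI a A s p P)
    rwa [x4] at this
  refine ⟨?_, ?_, ?_⟩
  · have h1 : ContDiffOn ℝ ∞ (fun P => (∑ i, (XiI a A s p P).1 i ^ 2) - a ^ 2)
        {P : V4 | |(P 3).re| < 3 * a / 2} := by
      refine ContDiffOn.sub (ContDiffOn.sum fun i _ => ?_) contDiffOn_const
      have h2 : ContDiffOn ℝ ∞ (fun P => (XiI a A s p P).1 i)
          {P : V4 | |(P 3).re| < 3 * a / 2} :=
        (contDiffOn_pi.1 (contDiff_fst.comp_contDiffOn x2)) i
      exact h2.pow 2
    exact h1.congr fun P _ => hr P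
  · intro P hP h0 hd
    set q := XiI a A s p P with hq
    have hqP : Xi a A s p q = P := x4 P
    have hq3 : q.1 3 = (P 3).re := by
      have := x5 q
      rw [hqP] at this
      rw [this]
    have hqm : q ∈ {q : (Fin 4 → ℝ) × (Fin 4 → ℝ) | |q.1 3| < 3 * a / 2} := by
      show |q.1 3| < 3 * a / 2
      rw [hq3]; exact hP
    have hXd : DifferentiableAt ℝ (Xi a A s p) q :=
      ((x1.contDiffAt ((cyl_open' _).mem_nhds hqm))).differentiableAt (by simp)
    have hrd : DifferentiableAt ℝ (rfun a A s p) P := by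
      have h1 : ContDiffAt ℝ ∞ (fun P => (∑ i, (XiI a A s p P).1 i ^ 2) - a ^ 2) P := by
        have h0 : ∀ i, ContDiffAt ℝ ∞ (fun P => (XiI a A s p P).1 i ^ 2) P := by
          intro i
          have h2 : ContDiffAt ℝ ∞ (XiI a A s p) P := x2.contDiffAt ((cyl_open _).mem_nhds hP)
          have h4 : ContDiffAt ℝ ∞ (fun P => (XiI a A s p P).1) P := h2.fst
          have h5 : ContDiffAt ℝ ∞ (fun P => (XiI a A s p P).1 i) P := contDiffAt_pi.1 h4 i
          exact h5.pow 2
        exact (ContDiffAt.sum fun i _ => h0 i).sub contDiffAt_const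
      have h3 : rfun a A s p = fun P => (∑ i, (XiI a A s p P).1 i ^ 2) - a ^ 2 := funext hr
      rw [h3]
      exact h1.differentiableAt (by simp)
    have hcomp : HasFDerivAt (fun q => rfun a A s p (Xi a A s p q))
        (0 : ((Fin 4 → ℝ) × (Fin 4 → ℝ)) →L[ℝ] ℝ) q := by
      have h1 : HasFDerivAt (rfun a A s p) (0 : V4 →L[ℝ] ℝ) (Xi a A s p q) := by
        rw [hqP, ← hd]
        exact hrd.hasFDerivAt
      have h2 := h1.comp q hXd.hasFDerivAt
      rw [ContinuousLinearMap.zero_comp] at h2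
      exact h2
    have hcomp2 : HasFDerivAt (fun q : (Fin 4 → ℝ) × (Fin 4 → ℝ) => (∑ i, q.1 i ^ 2) - a ^ 2)
        (0 : ((Fin 4 → ℝ) × (Fin 4 → ℝ)) →L[ℝ] ℝ) q := by
      refine hcomp.congr_of_eventuallyEq (Eventually.of_forall fun q => ?_)
      exact (x6 q).symm
    have hline : HasDerivAt (fun τ : ℝ => (q.1 + τ • q.1, q.2)) (q.1, 0) 0 := by
      have h1 : HasDerivAt (fun τ : ℝ => q.1 + τ • q.1) q.1 0 := by
        have := ((hasDerivAt_id (0 : ℝ)).smul_const q.1).const_add q.1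
        simpa using this
      exact h1.prodMk (hasDerivAt_const 0 q.2)
    have h3 : HasDerivAt (fun τ : ℝ => (∑ i, (q.1 + τ • q.1) i ^ 2) - a ^ 2) 0 0 := by
      have h4 : HasFDerivAt (fun q : (Fin 4 → ℝ) × (Fin 4 → ℝ) => (∑ i, q.1 i ^ 2) - a ^ 2)
          (0 : ((Fin 4 → ℝ) × (Fin 4 → ℝ)) →L[ℝ] ℝ)
          ((fun τ : ℝ => (q.1 + τ • q.1, q.2)) 0) := by
        simpa using hcomp2
      have h5 := h4.comp_hasDerivAt (0 : ℝ) hline
      exact h5
    have h6 : ∀ τ : ℝ, (∑ i, (q.1 + τ • q.1) i ^ 2) - a ^ 2 =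
        (1 + τ) ^ 2 * (∑ i, q.1 i ^ 2) - a ^ 2 := by
      intro τ
      rw [Finset.mul_sum]
      congr 1
      refine Finset.sum_congr rfl fun i _ => ?_
      simp only [Pi.add_apply, Pi.smul_apply, smul_eq_mul]
      ring
    simp_rw [h6] at h3
    have h7 : HasDerivAt (fun τ : ℝ => (1 + τ) ^ 2 * (∑ i, q.1 i ^ 2) - a ^ 2)
        (2 * (∑ i, q.1 i ^ 2)) 0 := by
      have h8 : HasDerivAt (fun τ : ℝ => (1 + τ) ^ 2) 2 0 := by
        have := ((hasDerivAt_id (0 : ℝ)).const_add 1).pow 2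
        exact HasDerivAt.congr_deriv this (by norm_num)
      exact (h8.mul_const _).sub_const _
    have h9 := h3.unique h7
    have h10 : (∑ i, q.1 i ^ 2) = a ^ 2 := by
      have := hr P
      rw [h0, ← hq] at this
      linarith
    rw [h10] at h9
    nlinarith [pow_pos ha 2]
  · have himg : Omt a A s p = Xi a A s p '' {q | (∑ i, q.1 i ^ 2) < a ^ 2} := by
      ext P
      constructor
      · intro hP
        refine ⟨XiI a A s p P, ?_, x4 P⟩
        have := (x7 (XiI a A s p P)).1 (by rw [x4]; exact hP)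
        exact this
      · rintro ⟨q, hq, rfl⟩
        exact (x7 q).2 hq
    rw [himg]
    refine IsConnected.image ?_ _ ?_
    · have hcv : Convex ℝ {q : (Fin 4 → ℝ) × (Fin 4 → ℝ) | (∑ i, q.1 i ^ 2) < a ^ 2} := by
        have h1 : ConvexOn ℝ univ (fun q : (Fin 4 → ℝ) × (Fin 4 → ℝ) => ∑ i, q.1 i ^ 2) := by
          refine ⟨convex_univ, fun x _ y _ α β hα hβ hαβ => ?_⟩
          simp only [smul_eq_mul, Prod.fst_add, Prod.smul_fst, Pi.add_apply, Pi.smul_apply]
          rw [Finset.mul_sum, Finset.mul_sum, ← Finset.sum_add_distrib]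
          refine Finset.sum_le_sum fun i _ => ?_
          have h2 : β = 1 - α := by linarith
          subst h2
          nlinarith [mul_nonneg (mul_nonneg hα hβ) (sq_nonneg (x.1 i - y.1 i))]
        have h2 := h1.convex_lt (a ^ 2)
        simpa using h2
      refine ⟨⟨0, ?_⟩, hcv.isPreconnected⟩
      show (∑ i, (0 : Fin 4 → ℝ) i ^ 2) < a ^ 2
      simp
      positivity
    · refine x1.continuousOn.mono fun q hq => ?_
      have h1 : q.1 3 ^ 2 < a ^ 2 := lt_of_le_of_lt (sq3_le q.1) hq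
      have h2 : |q.1 3| < a := abs_lt_of_sq_lt_sq h1 ha.le
      show |q.1 3| < 3 * a / 2
      linarith

end Pool.Agent.Helper70.AB
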