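import Pool.Agent.Helper70.AB.Lap

/-! # Project AB (MP_1ef41b_an), packet LR -/

open MeasureTheory Set Filter Topology
open scoped ContDiff

noncomputable section

namespace Pool.Agent.Helper70.AB

open Pool.Agent.Helper24.AB

/-- the strip `|Re ζ| < 3/2` -/
def S32 : Set ℂ := {ζ | |ζ.re| < 3 / 2}

theorem S32_open : IsOpen S32 :=
  isOpen_lt (continuous_abs.comp Complex.continuous_re) continuous_const

theorem pi_gt : (3 : ℝ) / 2 < Real.pi / 2 := by
  have := Real.pi_gt_three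
  linarith

theorem cos_ne {ζ : ℂ} (h : ζ ∈ S32) : Complex.cos ζ ≠ 0 := by
  rw [Ne, Complex.cos_eq_zero_iff]
  rintro ⟨k, hk⟩
  have h1 : ζ.re = (2 * k + 1) * Real.pi / 2 := by
    rw [hk]
    have : ((2 * (k : ℂ) + 1) * Real.pi / 2) = (((2 * k + 1) * Real.pi / 2 : ℝ) : ℂ) := by
      push_cast; ring
    rw [this, Complex.ofReal_re]
  have h2 : |ζ.re| < 3 / 2 := h
  rw [h1] at h2
  have h3 : 1 ≤ |(2 * (k : ℝ) + 1)| := by
    have : (1 : ℤ) ≤ |2 * k + 1| := Int.one_le_abs (by omega)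
    exact_mod_cast this
  have h4 : |(2 * (k : ℝ) + 1) * Real.pi / 2| = |(2 * (k : ℝ) + 1)| * (Real.pi / 2) := by
    rw [mul_div_assoc, abs_mul, abs_of_pos (by positivity : 0 < Real.pi / 2)]
  rw [h4] at h2
  nlinarith [pi_gt]

theorem sin_ne {ζ : ℂ} (h : ζ ∈ S32) (h0 : ζ ≠ 0) : Complex.sin ζ ≠ 0 := by
  rw [Ne, Complex.sin_eq_zero_iff]
  rintro ⟨k, hk⟩
  have h1 : ζ.re = k * Real.pi := by
    rw [hk]
    have : ((k : ℂ) * Real.pi) = ((k * Real.pi : ℝ) : ℂ) := by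
      push_cast; ring
    rw [this, Complex.ofReal_re]
  have h2 : |ζ.re| < 3 / 2 := h
  rw [h1] at h2
  by_cases hk0 : k = 0
  · rw [hk0] at hk
    apply h0
    rw [hk]
    simp
  · have h3 : 1 ≤ |(k : ℝ)| := by
      have : (1 : ℤ) ≤ |k| := Int.one_le_abs hk0
      exact_mod_cast this
    rw [abs_mul, abs_of_pos Real.pi_pos] at h2
    nlinarith [pi_gt, Real.pi_gt_three]

/-- `T(ζ) = tan ζ / ζ` -/
def Tf (ζ : ℂ) : ℂ := dslope Complex.sin 0 ζ / Complex.cos ζ

theorem ds_mul (ζ : ℂ) : ζ * dslope Complex.sin 0 ζ = Complex.sin ζ := by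
  have := sub_smul_dslope Complex.sin 0 ζ
  simpa using this

theorem ds_ne {ζ : ℂ} (h : ζ ∈ S32) : dslope Complex.sin 0 ζ ≠ 0 := by
  by_cases h0 : ζ = 0
  · rw [h0, dslope_same]
    simp
  · intro h1
    have := ds_mul ζ
    rw [h1, mul_zero] at this
    exact sin_ne h h0 this.symm

theorem Tf_ne {ζ : ℂ} (h : ζ ∈ S32) : Tf ζ ≠ 0 := div_ne_zero (ds_ne h) (cos_ne h)

theorem Tf_mul (ζ : ℂ) : ζ * Tf ζ = Complex.tan ζ := by
  rw [Tf, ← mul_div_assoc, ds_mul]
  rfl

theorem ds_diff : Differentiable ℂ (dslope Complex.sin 0) := by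
  rw [← differentiableOn_univ]
  rw [Complex.differentiableOn_dslope Filter.univ_mem]
  exact Complex.differentiable_sin.differentiableOn

theorem Tf_an {ζ : ℂ} (h : ζ ∈ S32) : AnalyticAt ℂ Tf ζ := by
  have h1 : DifferentiableOn ℂ Tf S32 := by
    intro w hw
    exact ((ds_diff w).div (Complex.differentiable_cos w) (cos_ne hw)).differentiableWithinAt
  exact h1.analyticAt (S32_open.mem_nhds h)

/-- `log(1-q) - log(1+q)`, `q = e^{2iζ}` -/
def Gp (ζ : ℂ) : ℂ :=
  Complex.log (1 + -Complex.exp (2 * Complex.I * ζ)) - Complex.log (1 + Complex.exp (2 * Complex.I * ζ))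

theorem q_norm (ζ : ℂ) : ‖Complex.exp (2 * Complex.I * ζ)‖ = Real.exp (-(2 * ζ.im)) := by
  rw [Complex.norm_exp]
  congr 1
  simp [mul_assoc]

theorem q_half {ζ : ℂ} (h : 1 / 2 < ζ.im) : ‖Complex.exp (2 * Complex.I * ζ)‖ < 1 / 2 := by
  rw [q_norm]
  have h1 : Real.exp (-(2 * ζ.im)) < Real.exp (-1) := Real.exp_lt_exp.2 (by linarith)
  have h2 : Real.exp (-1) < 1 / 2 := by
    have := Real.exp_neg_one_lt_d9
    linarith
  linarith

theorem slit {z : ℂ} (h : ‖z‖ < 1 / 2) : 1 + z ∈ Complex.slitPlane := by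
  left
  have := (abs_le.1 (Complex.abs_re_le_norm z)).1
  rw [Complex.add_re, Complex.one_re]
  linarith

theorem Gp_diff {ζ : ℂ} (h : 1 / 2 < ζ.im) : DifferentiableAt ℂ Gp ζ := by
  have h1 := q_half h
  have hq : DifferentiableAt ℂ (fun ζ => Complex.exp (2 * Complex.I * ζ)) ζ := by fun_prop
  refine DifferentiableAt.sub ?_ ?_
  · refine (hq.neg.const_add 1).clog (slit ?_)
    show ‖-Complex.exp (2 * Complex.I * ζ)‖ < 1 / 2
    rwa [norm_neg]
  · exact (hq.const_add 1).clog (slit h1)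

theorem Gp_norm {ζ : ℂ} (h : 1 / 2 < ζ.im) : ‖Gp ζ‖ ≤ 8 * Real.exp (-(2 * ζ.im)) := by
  have h1 := q_half h
  have h2 := Complex.norm_log_one_add_half_le_self (z := Complex.exp (2 * Complex.I * ζ)) h1.le
  have h3 := Complex.norm_log_one_add_half_le_self (z := -Complex.exp (2 * Complex.I * ζ))
    (by rw [norm_neg]; exact h1.le)
  rw [norm_neg] at h3
  rw [q_norm] at h2 h3
  have h4 := norm_sub_le (Complex.log (1 + -Complex.exp (2 * Complex.I * ζ)))
    (Complex.log (1 + Complex.exp (2 * Complex.I * ζ)))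
  rw [Gp]
  have := Real.exp_pos (-(2 * ζ.im))
  linarith

theorem tan_q (ζ : ℂ) : ‖Complex.tan ζ‖ =
    ‖1 + -Complex.exp (2 * Complex.I * ζ)‖ / ‖1 + Complex.exp (2 * Complex.I * ζ)‖ := by
  have h1 : Complex.exp (2 * Complex.I * ζ) = Complex.exp (ζ * Complex.I) * Complex.exp (ζ * Complex.I) := by
    rw [← Complex.exp_add]; congr 1; ring
  have h2 : Complex.exp (-ζ * Complex.I) * Complex.exp (ζ * Complex.I) = 1 := by
    rw [← Complex.exp_add]; simp
  have h3 : Complex.exp (ζ * Complex.I) ≠ 0 := Complex.exp_ne_zero _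
  have hs : Complex.sin ζ = Complex.exp (-ζ * Complex.I) * (1 + -Complex.exp (2 * Complex.I * ζ)) * Complex.I / 2 := by
    rw [Complex.sin, h1]
    linear_combination (Complex.exp (ζ * Complex.I) * Complex.I / 2) * h2
  have hc : Complex.cos ζ = Complex.exp (-ζ * Complex.I) * (1 + Complex.exp (2 * Complex.I * ζ)) / 2 := by
    rw [Complex.cos, h1]
    linear_combination (-Complex.exp (ζ * Complex.I) / 2) * h2
  have h4 : Complex.exp (-ζ * Complex.I) ≠ 0 := Complex.exp_ne_zero _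
  have h5 : Complex.tan ζ = Complex.I * ((1 + -Complex.exp (2 * Complex.I * ζ)) / (1 + Complex.exp (2 * Complex.I * ζ))) := by
    rw [Complex.tan, hs, hc]
    by_cases h6 : 1 + Complex.exp (2 * Complex.I * ζ) = 0
    · rw [h6]; simp
    · field_simp
  rw [h5, norm_mul, Complex.norm_I, one_mul, norm_div]

theorem Gp_re {ζ : ℂ} (h : 1 / 2 < ζ.im) : Real.log ‖Complex.tan ζ‖ = (Gp ζ).re := by
  have h1 := q_half h
  have h2 : 1 + Complex.exp (2 * Complex.I * ζ) ≠ 0 := Complex.slitPlane_ne_zero (slit h1)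
  have h3 : 1 + -Complex.exp (2 * Complex.I * ζ) ≠ 0 :=
    Complex.slitPlane_ne_zero (slit (by rwa [norm_neg]))
  rw [tan_q, Real.log_div (norm_ne_zero_iff.2 h3) (norm_ne_zero_iff.2 h2), Gp, Complex.sub_re,
    Complex.log_re, Complex.log_re]

theorem lr (hL : S_LOGR) : S_LR := by
  intro r hr hr4
  obtain ⟨l, hl1, hl2, hl3, hl4, hl5⟩ := hL r hr
  have hlog : ∀ ζ ∈ S32, ContDiffAt ℝ ∞ (fun w => Real.log ‖Tf w‖) ζ := fun ζ hζ =>
    smooth_log_norm (Tf_an hζ) (Tf_ne hζ)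
  have hlap : ∀ ζ ∈ S32, lapC (fun ζ => l ζ + Real.log ‖Tf ζ‖) ζ = lapC l ζ := by
    intro ζ hζ
    rw [lapC_add (hl1.contDiffAt.of_le two_le_inf) ((hlog ζ hζ).of_le two_le_inf),
      lapC_log_norm (Tf_an hζ) (Tf_ne hζ), add_zero]
  refine ⟨fun ζ => l ζ + Real.log ‖Tf ζ‖, fun ζ => if 0 < ζ.im then Gp ζ else Gp (-ζ),
    ?_, ?_, ?_, ?_, ?_, ?_⟩
  · intro ζ hζ
    exact (hl1.contDiffAt.add (hlog ζ hζ)).contDiffWithinAt
  · intro ζ hζ
    rw [hlap ζ hζ]
    exact hl3 ζ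
  · intro ζ hζ h1
    rw [hlap ζ hζ]
    exact hl4 ζ h1
  · intro R hR hR4
    rw [← hl5 R hR]
    refine setIntegral_congr_fun Metric.isOpen_ball.measurableSet fun ζ hζ => ?_
    apply hlap ζ
    rw [mem_ball_zero_iff] at hζ
    have := Complex.abs_re_le_norm ζ
    show |ζ.re| < 3 / 2
    linarith
  · intro ζ hζ
    obtain ⟨h1, h2⟩ := hζ
    rcases lt_abs.1 h2 with h3 | h3
    · refine ((Gp_diff h3).congr_of_eventuallyEq ?_).differentiableWithinAt
      have : ∀ᶠ z : ℂ in 𝓝 ζ, 0 < z.im :=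
        (isOpen_lt continuous_const Complex.continuous_im).mem_nhds (by
          show 0 < ζ.im
          linarith)
      filter_upwards [this] with z hz
      rw [if_pos hz]
    · have h4 : DifferentiableAt ℂ (fun ζ => Gp (-ζ)) ζ := by
        have h5 : DifferentiableAt ℂ Gp (-ζ) := Gp_diff (by rw [Complex.neg_im]; exact h3)
        exact h5.comp ζ differentiableAt_id.neg
      refine (h4.congr_of_eventuallyEq ?_).differentiableWithinAt
      have : ∀ᶠ z : ℂ in 𝓝 ζ, z.im < 0 :=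
        (isOpen_lt Complex.continuous_im continuous_const).mem_nhds (by
          show ζ.im < 0
          linarith)
      filter_upwards [this] with z hz
      rw [if_neg (not_lt.2 hz.le)]
  · intro ζ hζ h2
    have hn : r ≤ ‖ζ‖ := by
      have := Complex.abs_im_le_norm ζ
      linarith
    have hLt : l ζ + Real.log ‖Tf ζ‖ = Real.log ‖Complex.tan ζ‖ := by
      have h0 : ‖ζ‖ ≠ 0 := by linarith
      rw [hl2 ζ hn, ← Real.log_mul h0 (norm_ne_zero_iff.2 (Tf_ne hζ)), ← norm_mul, Tf_mul]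
    rcases lt_abs.1 h2 with h3 | h3
    · have h4 : 0 < ζ.im := by linarith
      simp only [if_pos h4]
      rw [hLt, abs_of_pos h4]
      exact ⟨Gp_re h3, Gp_norm h3⟩
    · have h4 : ζ.im < 0 := by linarith
      have h5 : 1 / 2 < (-ζ).im := by rw [Complex.neg_im]; exact h3
      simp only [if_neg (not_lt.2 h4.le)]
      rw [hLt, abs_of_neg h4]
      have h6 : ‖Complex.tan ζ‖ = ‖Complex.tan (-ζ)‖ := by
        rw [Complex.tan_neg, norm_neg]
      rw [h6]
      refine ⟨Gp_re h5, ?_⟩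
      have := Gp_norm h5
      rwa [Complex.neg_im] at this

end Pool.Agent.Helper70.AB
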