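import Pool.Agent.Helper70.AB.Ker

/-! # Project AB (MP_1ef41b_an), packet WEYL: Weyl's lemma for `∂̄` -/

open MeasureTheory Set Filter Topology
open scoped ContDiff

noncomputable section

namespace Pool.Agent.Helper70.AB

open Pool.Agent.Helper24.AB

theorem int_mul {K : Set ℂ} (hK : IsCompact K) {u f : ℂ → ℂ} (hu : IntegrableOn u K)
    (hf : Continuous f) (hs : Function.support f ⊆ K) : Integrable (fun s => u s * f s) := by
  have h1 : IntegrableOn (fun s => u s * f s) K := hu.mul_continuousOn hf.continuousOn hK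
  refine (integrableOn_iff_integrable_of_support_subset ?_).1 h1
  intro s hs'
  refine hs fun h => hs' ?_
  simp only [h, mul_zero]

/-- the mollification -/
def V (u : ℂ → ℂ) (δ : ℝ) (w : ℂ) : ℂ := ∫ s, u s * (kd δ (w - s) : ℂ)

theorem kdc_smooth (δ : ℝ) (w : ℂ) : ContDiff ℝ ∞ (fun s : ℂ => (kd δ (w - s) : ℂ)) := by
  have h := (kd_smooth δ).comp (contDiff_const.sub contDiff_id : ContDiff ℝ ∞ (fun s : ℂ => w - s))
  exact Complex.ofRealCLM.contDiff.comp h

theorem kdc_supp {δ : ℝ} (hδ : 0 < δ) (w : ℂ) :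
    Function.support (fun s : ℂ => (kd δ (w - s) : ℂ)) ⊆ Metric.closedBall w δ := by
  intro s hs
  rw [Function.mem_support] at hs
  have h : kd δ (w - s) ≠ 0 := by exact_mod_cast hs
  have h2 := kd_supp hδ h
  rw [mem_closedBall_zero_iff] at h2
  rw [mem_closedBall_iff_norm, norm_sub_rev]
  exact h2

theorem V_integrable {S : Set ℂ} {u : ℂ → ℂ} (hu : LocallyIntegrableOn u S) {w : ℂ} {δ : ℝ}
    (hδ : 0 < δ) (h1 : Metric.closedBall w δ ⊆ S) :
    Integrable (fun s => u s * (kd δ (w - s) : ℂ)) :=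
  int_mul (isCompact_closedBall w δ)
    (hu.integrableOn_compact_subset h1 (isCompact_closedBall w δ))
    (kdc_smooth δ w).continuous (kdc_supp hδ w)

theorem dzb_comp_sub {f : ℂ → ℂ} (hf : Differentiable ℝ f) (w s : ℂ) :
    dzb (fun s => f (w - s)) s = -dzb f (w - s) := by
  have h1 : HasFDerivAt (fun s : ℂ => w - s) (-ContinuousLinearMap.id ℝ ℂ) s :=
    (hasFDerivAt_id s).const_sub w
  have h2 : HasFDerivAt (fun s => f (w - s)) _ s := (hf (w - s)).hasFDerivAt.comp s h1
  unfold dzb dS dT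
  rw [h2.fderiv]
  simp
  ring

theorem dzb_sub {f g : ℂ → ℂ} (hf : Differentiable ℝ f) (hg : Differentiable ℝ g) (s : ℂ) :
    dzb (fun s => f s - g s) s = dzb f s - dzb g s := by
  have h2 : HasFDerivAt (fun s => f s - g s) _ s := (hf s).hasFDerivAt.sub (hg s).hasFDerivAt
  unfold dzb dS dT
  rw [h2.fderiv]
  simp
  ring

/-- the weak form of `∂̄ u = 0` -/
def Weak (S : Set ℂ) (u : ℂ → ℂ) : Prop :=
  ∀ ψ : ℂ → ℂ, ContDiff ℝ ∞ ψ → HasCompactSupport ψ → tsupport ψ ⊆ S → ∫ w, u w * dzb ψ w = 0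

theorem V_indep {S : Set ℂ} {u : ℂ → ℂ} (hu : LocallyIntegrableOn u S) (hW : Weak S u)
    {w : ℂ} {δ ε : ℝ} (hδ : 0 < δ) (hε : 0 < ε) (h1 : Metric.closedBall w δ ⊆ S)
    (h2 : Metric.closedBall w ε ⊆ S) : V u δ w = V u ε w := by
  have hC : ∀ δ, Differentiable ℝ (Cd δ) := fun δ => (Cd_smooth δ).differentiable (by simp)
  have hsm : ContDiff ℝ ∞ (fun s => Cd δ (w - s) - Cd ε (w - s)) :=
    ((Cd_smooth δ).comp (contDiff_const.sub contDiff_id)).sub
      ((Cd_smooth ε).comp (contDiff_const.sub contDiff_id))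
  have hmax : Metric.closedBall w (max δ ε) ⊆ S := by
    rcases max_choice δ ε with h | h <;> rw [h] <;> assumption
  have hts : tsupport (fun s => Cd δ (w - s) - Cd ε (w - s)) ⊆ Metric.closedBall w (max δ ε) := by
    refine closure_minimal ?_ Metric.isClosed_closedBall
    intro s hs
    by_contra h
    rw [mem_closedBall_iff_norm, norm_sub_rev, not_le] at h
    exact hs (Cd_sub_zero hδ hε h)
  have h3 := hW _ hsm ((isCompact_closedBall w _).of_isClosed_subset (isClosed_tsupport _) hts)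
    (hts.trans hmax)
  have h4 : ∀ s, dzb (fun s => Cd δ (w - s) - Cd ε (w - s)) s =
      (kd ε (w - s) : ℂ) - (kd δ (w - s) : ℂ) := by
    intro s
    have hd : ∀ δ, Differentiable ℝ (fun s => Cd δ (w - s)) := fun δ =>
      (hC δ).comp (by fun_prop)
    rw [dzb_sub (hd δ) (hd ε), dzb_comp_sub (hC δ), dzb_comp_sub (hC ε), Cd_dzb hδ, Cd_dzb hε]
    ring
  simp_rw [h4, mul_sub] at h3
  rw [integral_sub (V_integrable hu hε h2) (V_integrable hu hδ h1)] at h3
  unfold V
  exact (sub_eq_zero.1 h3).symm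

/-- the kernel, complex valued -/
def kc (δ : ℝ) (s : ℂ) : ℂ := (kd δ s : ℂ)

theorem kc_smooth (δ : ℝ) : ContDiff ℝ ∞ (kc δ) :=
  Complex.ofRealCLM.contDiff.comp (kd_smooth δ)

theorem kc_supp {δ : ℝ} (hδ : 0 < δ) : Function.support (kc δ) ⊆ Metric.closedBall 0 δ := by
  intro s hs
  rw [Function.mem_support, kc] at hs
  exact kd_supp hδ (by exact_mod_cast hs)

theorem kc_tsupp {δ : ℝ} (hδ : 0 < δ) : tsupport (kc δ) ⊆ Metric.closedBall 0 δ :=
  closure_minimal (kc_supp hδ) Metric.isClosed_closedBall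

theorem kc_cs {δ : ℝ} (hδ : 0 < δ) : HasCompactSupport (kc δ) :=
  (isCompact_closedBall (0 : ℂ) δ).of_isClosed_subset (isClosed_tsupport _) (kc_tsupp hδ)

/-- directional derivative of the kernel -/
def kv (δ : ℝ) (v s : ℂ) : ℂ := fderiv ℝ (kc δ) s v

theorem kv_cont (δ : ℝ) (v : ℂ) : Continuous (kv δ v) := by
  unfold kv
  exact ((kc_smooth δ).continuous_fderiv (by simp)).clm_apply continuous_const

theorem kv_supp {δ : ℝ} (hδ : 0 < δ) (v : ℂ) :
    Function.support (kv δ v) ⊆ Metric.closedBall 0 δ := by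
  intro s hs
  refine (support_fderiv_subset ℝ (f := kc δ)).trans (kc_tsupp hδ) ?_
  rw [Function.mem_support]
  intro h
  apply hs
  unfold kv
  rw [h]
  rfl

theorem sub_mem {K : Set ℂ} {w0 w s : ℂ} {r : ℝ} (hw : w ∈ Metric.ball w0 r)
    (hs : w - s ∈ Metric.closedBall (0 : ℂ) r) (hK : K = Metric.closedBall w0 (2 * r)) :
    s ∈ K := by
  rw [hK]
  rw [mem_closedBall_zero_iff] at hs
  rw [mem_ball_iff_norm] at hw
  rw [mem_closedBall_iff_norm]
  have h : s - w0 = (w - w0) - (w - s) := by ring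
  rw [h]
  have := norm_sub_le (w - w0) (w - s)
  linarith

theorem ind_mul {K : Set ℂ} {u f : ℂ → ℂ} (hf : Function.support f ⊆ K) (s : ℂ) :
    K.indicator u s * f s = u s * f s := by
  by_cases hs : s ∈ K
  · rw [indicator_of_mem hs]
  · have : f s = 0 := by
      by_contra h
      exact hs (hf h)
    rw [this, mul_zero, mul_zero]

theorem V_holo {S : Set ℂ} {u : ℂ → ℂ} (hu : LocallyIntegrableOn u S) (hW : Weak S u)
    {w0 : ℂ} {r : ℝ} (hr : 0 < r) (h1 : Metric.closedBall w0 (2 * r) ⊆ S) {w : ℂ}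
    (hw : w ∈ Metric.ball w0 r) : DifferentiableAt ℂ (V u r) w := by
  set K := Metric.closedBall w0 (2 * r) with hK
  have hKc : IsCompact K := isCompact_closedBall _ _
  have hi : IntegrableOn u K := hu.integrableOn_compact_subset h1 hKc
  set H := K.indicator u with hH
  have hHi : Integrable H := hi.integrable_indicator Metric.isClosed_closedBall.measurableSet
  set L := ContinuousLinearMap.mul ℝ ℂ with hL
  have hsk : ∀ w ∈ Metric.ball w0 r, Function.support (fun s => kc r (w - s)) ⊆ K := by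
    intro w hw s hs
    exact sub_mem hw (kc_supp hr hs) hK
  have hsv : ∀ v, ∀ w ∈ Metric.ball w0 r, Function.support (fun s => kv r v (w - s)) ⊆ K := by
    intro v w hw s hs
    exact sub_mem hw (kv_supp hr v hs) hK
  have hVc : ∀ w ∈ Metric.ball w0 r, V u r w = convolution H (kc r) L volume w := by
    intro w hw
    unfold V convolution
    refine integral_congr_ae (Eventually.of_forall fun s => ?_)
    exact (ind_mul (hsk w hw) s).symm
  have hloc : V u r =ᶠ[𝓝 w] convolution H (kc r) L volume := by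
    filter_upwards [Metric.isOpen_ball.mem_nhds hw] with w' hw'
    exact hVc w' hw'
  rw [hloc.differentiableAt_iff, differentiableAt_complex_iff_differentiableAt_real]
  have hd := (kc_cs hr).hasFDerivAt_convolution_right L hHi.locallyIntegrable
    ((kc_smooth r).of_le (by simp)) w
  refine ⟨hd.differentiableAt, ?_⟩
  have hfd : ∀ v, fderiv ℝ (convolution H (kc r) L volume) w v =
      ∫ s, u s * kv r v (w - s) := by
    intro v
    rw [hd.fderiv, convolution_precompR_apply L hHi.locallyIntegrable ((kc_cs hr).fderiv ℝ)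
      ((kc_smooth r).continuous_fderiv (by simp))]
    unfold convolution
    refine integral_congr_ae (Eventually.of_forall fun s => ?_)
    exact ind_mul (hsv v w hw) s
  have hint : ∀ v, Integrable (fun s => u s * kv r v (w - s)) := by
    intro v
    exact int_mul hKc hi ((kv_cont r v).comp (by fun_prop)) (hsv v w hw)
  have hwk : ∫ s, u s * dzb (fun s => kc r (w - s)) s = 0 := by
    have hts : tsupport (fun s => kc r (w - s)) ⊆ K :=
      closure_minimal (hsk w hw) Metric.isClosed_closedBall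
    exact hW _ ((kc_smooth r).comp (contDiff_const.sub contDiff_id))
      (hKc.of_isClosed_subset (isClosed_tsupport _) hts) (hts.trans h1)
  have hwk2 : ∫ s, u s * dzb (fun s => kc r (w - s)) s =
      -(1 / 2) * ((∫ s, u s * kv r 1 (w - s)) + Complex.I * ∫ s, u s * kv r Complex.I (w - s)) := by
    rw [← integral_const_mul, ← integral_add (hint 1) ((hint Complex.I).const_mul _),
      ← integral_const_mul]
    refine integral_congr_ae (Eventually.of_forall fun s => ?_)
    simp only
    rw [dzb_comp_sub ((kc_smooth r).differentiable (by simp))]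
    unfold dzb dS dT kv
    ring
  rw [hwk2] at hwk
  rw [hfd, hfd, smul_eq_mul]
  have e4 : Complex.I * Complex.I = -1 := Complex.I_mul_I
  generalize (∫ s, u s * kv r 1 (w - s)) = A at hwk ⊢
  generalize (∫ s, u s * kv r Complex.I (w - s)) = B at hwk ⊢
  linear_combination B * e4 + 2 * Complex.I * hwk

/-- Lebesgue differentiation with the radial kernel -/
theorem V_lebesgue {H : ℂ → ℂ} (hH : Integrable H) :
    ∀ᵐ w, Tendsto (fun δ => V H δ w) (𝓝[>] 0) (𝓝 (H w)) := by
  obtain ⟨M, hM0, hM⟩ := kd_bdd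
  filter_upwards [IsUnifLocDoublingMeasure.ae_tendsto_average_norm_sub (μ := (volume : Measure ℂ))
    hH.locallyIntegrable 1] with w hw
  have h1 : Tendsto (fun δ : ℝ => ⨍ y in Metric.closedBall w δ, ‖H y - H w‖) (𝓝[>] 0) (𝓝 0) := by
    refine hw (fun _ => w) (fun δ => δ) tendsto_id ?_
    filter_upwards [self_mem_nhdsWithin] with δ hδ
    rw [one_mul]
    exact Metric.mem_closedBall_self (le_of_lt hδ)
  rw [tendsto_iff_norm_sub_tendsto_zero]
  have h2 : Tendsto (fun δ : ℝ => (M * Real.pi) * ⨍ y in Metric.closedBall w δ, ‖H y - H w‖)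
      (𝓝[>] 0) (𝓝 0) := by
    simpa using h1.const_mul (M * Real.pi)
  refine squeeze_zero' (Eventually.of_forall fun _ => norm_nonneg _) ?_ h2
  filter_upwards [self_mem_nhdsWithin] with δ hδ
  rw [mem_Ioi] at hδ
  have hk1 : ∫ s, kd δ (w - s) = 1 := by
    rw [integral_sub_left_eq_self (fun s => kd δ s) volume w, kd_int hδ]
  have hk2 : ∫ s, (kd δ (w - s) : ℂ) = 1 := by
    rw [integral_complex_ofReal, hk1]; simp
  have hB := isCompact_closedBall w δ
  have hiH : Integrable (fun s => H s * (kd δ (w - s) : ℂ)) :=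
    int_mul hB hH.integrableOn (kdc_smooth δ w).continuous (kdc_supp hδ w)
  have hic : Integrable (fun s => H w * (kd δ (w - s) : ℂ)) := by
    refine int_mul hB (u := fun _ => H w) ?_ (kdc_smooth δ w).continuous (kdc_supp hδ w)
    exact continuousOn_const.integrableOn_compact hB
  have h3 : V H δ w - H w = ∫ s, (H s - H w) * (kd δ (w - s) : ℂ) := by
    simp_rw [sub_mul]
    rw [integral_sub hiH hic, integral_const_mul, hk2, mul_one]
    rfl
  rw [h3]
  have hiN : IntegrableOn (fun s => ‖H s - H w‖) (Metric.closedBall w δ) := by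
    refine (Integrable.sub hH.integrableOn ?_).norm
    exact continuousOn_const.integrableOn_compact hB
  have h4 : ‖∫ s, (H s - H w) * (kd δ (w - s) : ℂ)‖ ≤
      ∫ s in Metric.closedBall w δ, ‖H s - H w‖ * (M / δ ^ 2) := by
    rw [← setIntegral_eq_integral_of_forall_compl_eq_zero (s := Metric.closedBall w δ)]
    · refine norm_integral_le_of_norm_le (hiN.mul_const _) ?_
      refine Eventually.of_forall fun s => ?_
      rw [norm_mul]
      refine mul_le_mul_of_nonneg_left ?_ (norm_nonneg _)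
      rw [Complex.norm_real, Real.norm_of_nonneg (kd_nonneg _ _)]
      exact hM δ hδ _
    · intro s hs
      have : (kd δ (w - s) : ℂ) = 0 := by
        by_contra h
        exact hs (kdc_supp hδ w h)
      rw [this, mul_zero]
  refine h4.trans (le_of_eq ?_)
  rw [integral_mul_const, setAverage_eq, Measure.real, Complex.volume_closedBall]
  have hpi := Real.pi_pos
  have h5 : (ENNReal.ofReal δ ^ 2 * NNReal.pi).toReal = δ ^ 2 * Real.pi := by
    rw [ENNReal.toReal_mul, ENNReal.toReal_pow, ENNReal.toReal_ofReal hδ.le]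
    rfl
  rw [h5, smul_eq_mul]
  field_simp

/-- the holomorphic representative -/
theorem weyl_open {S : Set ℂ} (hS : IsOpen S) {u : ℂ → ℂ} (hu : LocallyIntegrableOn u S)
    (hW : Weak S u) : ∃ g : ℂ → ℂ, DifferentiableOn ℂ g S ∧ volume {w ∈ S | u w ≠ g w} = 0 := by
  have hch : ∀ w : ℂ, ∃ δ : ℝ, 0 < δ ∧ (w ∈ S → Metric.closedBall w δ ⊆ S) := by
    intro w
    by_cases hw : w ∈ S
    · obtain ⟨δ, hδ, h⟩ := Metric.nhds_basis_closedBall.mem_iff.1 (hS.mem_nhds hw)
      exact ⟨δ, hδ, fun _ => h⟩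
    · exact ⟨1, one_pos, fun h => absurd h hw⟩
  choose δ hδ hδS using hch
  refine ⟨fun w => V u (δ w) w, ?_, ?_⟩
  · intro w0 hw0
    obtain ⟨r', hr', h⟩ := Metric.nhds_basis_closedBall.mem_iff.1 (hS.mem_nhds hw0)
    have hr : 0 < r' / 2 := by positivity
    have h1 : Metric.closedBall w0 (2 * (r' / 2)) ⊆ S := by
      rwa [mul_div_cancel₀ _ (two_ne_zero)]
    have hd := V_holo hu hW hr h1 (Metric.mem_ball_self hr)
    refine (hd.congr_of_eventuallyEq ?_).differentiableWithinAt
    filter_upwards [Metric.ball_mem_nhds w0 hr] with w hw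
    have hwS : Metric.closedBall w (r' / 2) ⊆ S := by
      refine (Metric.closedBall_subset_closedBall' ?_).trans h1
      rw [Metric.mem_ball] at hw
      linarith
    have hwS' : w ∈ S := hwS (Metric.mem_closedBall_self hr.le)
    exact V_indep hu hW (hδ w) hr (hδS w hwS') hwS
  · refine measure_null_of_locally_null _ fun w0 hw0 => ?_
    obtain ⟨r', hr', h⟩ := Metric.nhds_basis_closedBall.mem_iff.1 (hS.mem_nhds hw0.1)
    have hr : 0 < r' / 2 := by positivity
    have h1 : Metric.closedBall w0 (2 * (r' / 2)) ⊆ S := by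
      rwa [mul_div_cancel₀ _ (two_ne_zero)]
    refine ⟨{w ∈ S | u w ≠ V u (δ w) w} ∩ Metric.ball w0 (r' / 2),
      inter_mem_nhdsWithin _ (Metric.ball_mem_nhds w0 hr), ?_⟩
    set K := Metric.closedBall w0 (2 * (r' / 2)) with hK
    have hi : IntegrableOn u K := hu.integrableOn_compact_subset h1 (isCompact_closedBall _ _)
    have hHi : Integrable (K.indicator u) :=
      hi.integrable_indicator Metric.isClosed_closedBall.measurableSet
    have hae := V_lebesgue hHi
    refine measure_mono_null ?_ hae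
    rintro w ⟨⟨hwS, hne⟩, hw⟩
    rw [mem_compl_iff, mem_ofPred_eq]
    intro ht
    apply hne
    have hwK : w ∈ K := by
      rw [hK, Metric.mem_closedBall]
      rw [Metric.mem_ball] at hw
      linarith
    rw [indicator_of_mem hwK] at ht
    have hev : ∀ᶠ ε in 𝓝[>] (0 : ℝ), V (K.indicator u) ε w = V u (δ w) w := by
      filter_upwards [Ioo_mem_nhdsGT hr] with ε hε
      have hεS : Metric.closedBall w ε ⊆ K := by
        refine Metric.closedBall_subset_closedBall' ?_
        rw [Metric.mem_ball] at hw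
        linarith [hε.2]
      rw [V_indep hu hW (hδ w) hε.1 (hδS w hwS) (hεS.trans h1)]
      unfold V
      refine integral_congr_ae (Eventually.of_forall fun s => ?_)
      exact ind_mul ((kdc_supp hε.1 w).trans hεS) s
    exact tendsto_nhds_unique (ht.congr' hev) tendsto_const_nhds

theorem isOpen_strip (a : ℝ) : IsOpen (strip a) :=
  isOpen_lt (continuous_abs.comp Complex.continuous_re) continuous_const

theorem dop_conj {a : ℝ} {Φ : ℂ → ℝ} (hΦ : ContDiffOn ℝ ∞ Φ (strip a)) {ψ : ℂ → ℂ}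
    (hψ : ContDiff ℝ ∞ ψ) {w : ℂ} (hw : w ∈ strip a) :
    (starRingEnd ℂ) (Dop Φ (fun w => (Real.exp (Φ w) : ℂ) * (starRingEnd ℂ) (ψ w)) w) =
      -((Real.exp (Φ w) : ℂ) * dzb ψ w) := by
  have hS := isOpen_strip a
  have h1 : HasFDerivAt Φ (fderiv ℝ Φ w) w :=
    ((hΦ.contDiffAt (hS.mem_nhds hw)).differentiableAt (by simp)).hasFDerivAt
  have h2 : HasFDerivAt ψ (fderiv ℝ ψ w) w := ((hψ.differentiable (by simp)) w).hasFDerivAt
  have h3 : HasFDerivAt (fun w => (Real.exp (Φ w) : ℂ)) _ w :=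
    Complex.ofRealCLM.hasFDerivAt.comp w h1.exp
  have h4 : HasFDerivAt (fun w => (Φ w : ℂ)) _ w := Complex.ofRealCLM.hasFDerivAt.comp w h1
  have h5 : HasFDerivAt (fun w => (starRingEnd ℂ) (ψ w)) _ w :=
    Complex.conjCLE.hasFDerivAt.comp w h2
  have h6 : HasFDerivAt (fun w => (Real.exp (Φ w) : ℂ) * (starRingEnd ℂ) (ψ w)) _ w := h3.mul h5
  unfold Dop dz dzb dS dT
  rw [h6.fderiv, h4.fderiv]
  have e1 : (starRingEnd ℂ) (Complex.exp (Φ w)) = Complex.exp (Φ w) := by
    rw [← Complex.exp_conj, Complex.conj_ofReal]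
  have e2 : (starRingEnd ℂ) (2 : ℂ) = 2 := Complex.conj_ofNat 2
  simp [e1, e2]
  ring

theorem test_exp {a : ℝ} {Φ : ℂ → ℝ} (hΦ : ContDiffOn ℝ ∞ Φ (strip a)) {ψ : ℂ → ℂ}
    (hψ : ContDiff ℝ ∞ ψ) (hc : HasCompactSupport ψ) (ht : tsupport ψ ⊆ strip a) :
    IsTest a (fun w => (Real.exp (Φ w) : ℂ) * (starRingEnd ℂ) (ψ w)) := by
  have hS := isOpen_strip a
  have hts : tsupport (fun w => (Real.exp (Φ w) : ℂ) * (starRingEnd ℂ) (ψ w)) ⊆ tsupport ψ := by
    refine closure_mono ?_
    intro w hw h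
    apply hw
    simp only [h, map_zero, mul_zero]
  refine ⟨?_, hc.of_isClosed_subset (isClosed_tsupport _) hts, hts.trans ht⟩
  rw [contDiff_iff_contDiffAt]
  intro w
  by_cases hw : w ∈ tsupport ψ
  · have h1 : ContDiffAt ℝ ∞ Φ w := hΦ.contDiffAt (hS.mem_nhds (ht hw))
    have h2 : ContDiffAt ℝ ∞ (fun w => (Real.exp (Φ w) : ℂ)) w :=
      Complex.ofRealCLM.contDiff.contDiffAt.comp w h1.exp
    have h3 : ContDiffAt ℝ ∞ (fun w => (starRingEnd ℂ) (ψ w)) w :=
      Complex.conjCLE.contDiff.contDiffAt.comp w hψ.contDiffAt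
    exact h2.mul h3
  · have h1 : ψ =ᶠ[𝓝 w] 0 := notMem_tsupport_iff_eventuallyEq.1 hw
    refine (contDiffAt_const (c := (0 : ℂ))).congr_of_eventuallyEq ?_
    filter_upwards [h1] with s hs
    simp [hs]

theorem weyl : S_WEYL := by
  intro a Φ G ha hΦ hG hW
  have hS := isOpen_strip a
  set u : ℂ → ℂ := fun w => (Real.exp (Φ w) : ℂ) * G w with hu
  have hGl : LocallyIntegrableOn G (strip a) :=
    locallyIntegrableOn_of_locallyIntegrable_restrict (hG.locallyIntegrable (by norm_num))
  have hul : LocallyIntegrableOn u (strip a) := by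
    refine hGl.continuousOn_mul ?_ hS.isLocallyClosed
    exact Complex.continuous_ofReal.comp_continuousOn
      (Real.continuous_exp.comp_continuousOn hΦ.continuousOn)
  have hWk : Weak (strip a) u := by
    intro ψ hψ hc ht
    have h1 := hW _ (test_exp hΦ hψ hc ht)
    have h2 : ∫ w in strip a, G w * (starRingEnd ℂ)
        (Dop Φ (fun w => (Real.exp (Φ w) : ℂ) * (starRingEnd ℂ) (ψ w)) w) =
        ∫ w in strip a, -(u w * dzb ψ w) := by
      refine setIntegral_congr_fun hS.measurableSet fun w hw => ?_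
      rw [dop_conj hΦ hψ hw, hu]
      ring
    rw [h2, integral_neg, neg_eq_zero] at h1
    rw [← h1]
    refine (setIntegral_eq_integral_of_forall_compl_eq_zero fun w hw => ?_).symm
    have h3 : fderiv ℝ ψ w = 0 := by
      by_contra h
      exact hw (ht (support_fderiv_subset ℝ h))
    unfold dzb dS dT
    rw [h3]
    simp
  obtain ⟨g, hg, hg0⟩ := weyl_open hS hul hWk
  refine ⟨g, hg, ?_⟩
  rw [muS, EventuallyEq, ae_restrict_iff' hS.measurableSet]
  refine measure_mono_null ?_ hg0
  intro w hw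
  rw [mem_compl_iff, mem_ofPred_eq, Classical.not_imp] at hw
  refine ⟨hw.1, fun h => hw.2 ?_⟩
  rw [← h, hu]
  beta_reduce
  rw [← mul_assoc, ← Complex.ofReal_mul, ← Real.exp_add, neg_add_cancel, Real.exp_zero,
    Complex.ofReal_one, one_mul]

end Pool.Agent.Helper70.AB
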