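import Pool.Agent.Helper10.AB.GoalsEMB

/-! # Project AB (MP_1ef41b_an), module EMB, packet KER -/

open Set Filter Topology Polynomial
open scoped ContDiff

noncomputable section

namespace Pool.Agent.Helper70.AB

open Pool.Agent.Helper24.AB Pool.Agent.Helper10.AB

theorem exists_antideriv (p : ℝ[X]) : ∃ q : ℝ[X], derivative q = p ∧ q.eval 0 = 0 := by
  induction p using Polynomial.induction_on' with
  | add p q hp hq =>
    obtain ⟨P, hP, hP0⟩ := hp
    obtain ⟨Q, hQ, hQ0⟩ := hq
    exact ⟨P + Q, by rw [derivative_add, hP, hQ], by rw [eval_add, hP0, hQ0, add_zero]⟩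
  | monomial n a =>
    refine ⟨monomial (n + 1) (a / (n + 1)), ?_, ?_⟩
    · rw [derivative_monomial]
      have : (n : ℝ) + 1 ≠ 0 := by positivity
      congr 1
      push_cast
      field_simp
    · rw [eval_monomial]
      simp

/-- the inverse of the sigmoid function -/
def lg (y : ℝ) : ℝ := -Real.log (y⁻¹ - 1)

theorem lg_sigmoid (x : ℝ) : lg (Real.sigmoid x) = x := by
  unfold lg
  rw [Real.sigmoid_def, inv_inv, add_sub_cancel_left, Real.log_exp, neg_neg]

theorem sigmoid_lg {y : ℝ} (hy : y ∈ Ioo (0 : ℝ) 1) : Real.sigmoid (lg y) = y := by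
  have h : 0 < y⁻¹ - 1 := by
    have := (one_lt_inv₀ hy.1).2 hy.2
    linarith
  unfold lg
  rw [Real.sigmoid_def, neg_neg, Real.exp_log h]
  simp

theorem lg_cont : ContinuousOn lg (Ioo 0 1) := by
  unfold lg
  refine ContinuousOn.neg (ContinuousOn.log ?_ ?_)
  · exact (continuousOn_id.inv₀ fun y hy => hy.1.ne').sub continuousOn_const
  · intro y hy
    have := (one_lt_inv₀ hy.1).2 hy.2
    linarith

/-- the function to be approximated -/
def Kf (G : ℝ → ℝ) (y : ℝ) : ℝ := (Ioo (0 : ℝ) 1).indicator (fun y => G (lg y) / (y * (1 - y))) y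

theorem Kf_cont {G : ℝ → ℝ} (hG : Continuous G) (hc : HasCompactSupport G) :
    Continuous (Kf G) := by
  have h1 : ContinuousOn (Kf G) (Ioo 0 1) := by
    refine ContinuousOn.congr (f := fun y => G (lg y) / (y * (1 - y))) ?_ ?_
    · refine ContinuousOn.div (hG.comp_continuousOn lg_cont) ?_ ?_
      · exact Continuous.continuousOn (by fun_prop)
      · intro y hy
        exact (mul_pos hy.1 (by linarith [hy.2])).ne'
    · intro y hy
      exact indicator_of_mem hy _
  have hK : IsCompact (Real.sigmoid '' tsupport G) :=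
    IsCompact.image hc (continuous_iff_continuousAt.2 fun x => (Real.hasDerivAt_sigmoid x).continuousAt)
  have hsub : Real.sigmoid '' tsupport G ⊆ Ioo 0 1 := by
    rintro _ ⟨x, _, rfl⟩
    exact ⟨Real.sigmoid_pos x, Real.sigmoid_lt_one x⟩
  have hts : tsupport (Kf G) ⊆ Real.sigmoid '' tsupport G := by
    refine closure_minimal ?_ hK.isClosed
    intro y hy
    rw [Function.mem_support, Kf] at hy
    have hy1 : y ∈ Ioo (0 : ℝ) 1 := by
      by_contra h
      exact hy (indicator_of_notMem h _)
    rw [indicator_of_mem hy1] at hy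
    refine ⟨lg y, subset_closure ?_, sigmoid_lg hy1⟩
    intro h
    apply hy
    simp only [h, zero_div]
  exact h1.continuous_of_tsupport_subset isOpen_Ioo (hts.trans hsub)

theorem Kf_sigmoid (G : ℝ → ℝ) (x : ℝ) :
    Kf G (Real.sigmoid x) * (Real.sigmoid x * (1 - Real.sigmoid x)) = G x := by
  have h1 := Real.sigmoid_pos x
  have h2 := Real.sigmoid_lt_one x
  rw [Kf, indicator_of_mem (show Real.sigmoid x ∈ Ioo (0 : ℝ) 1 from ⟨h1, h2⟩), lg_sigmoid]
  exact div_mul_cancel₀ _ (mul_pos h1 (by linarith)).ne'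

theorem real_approx {g : ℝ → ℝ} (hg : ContDiff ℝ 1 g) (hc : HasCompactSupport g) {ε : ℝ}
    (hε : 0 < ε) : ∃ p q : ℝ[X], derivative q = p ∧ (∀ x, |q.eval (Real.sigmoid x) - g x| ≤ ε) ∧
      ∀ x, |p.eval (Real.sigmoid x) * (Real.sigmoid x * (1 - Real.sigmoid x)) - deriv g x| ≤ ε := by
  have hG : Continuous (deriv g) := hg.continuous_deriv le_rfl
  obtain ⟨p, hp⟩ := exists_polynomial_near_of_continuousOn 0 1 (Kf (deriv g))
    (Kf_cont hG hc.deriv).continuousOn ε hε
  obtain ⟨q, hq, hq0⟩ := exists_antideriv p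
  have hs0 : ∀ x, 0 ≤ Real.sigmoid x * (1 - Real.sigmoid x) := fun x =>
    mul_nonneg (Real.sigmoid_nonneg x) (by linarith [Real.sigmoid_lt_one x])
  have hs1 : ∀ x, Real.sigmoid x * (1 - Real.sigmoid x) ≤ 1 := fun x => by
    nlinarith [Real.sigmoid_pos x, Real.sigmoid_lt_one x]
  have hd : ∀ x, |p.eval (Real.sigmoid x) * (Real.sigmoid x * (1 - Real.sigmoid x)) - deriv g x| ≤
      ε * (Real.sigmoid x * (1 - Real.sigmoid x)) := by
    intro x
    have h1 := hp (Real.sigmoid x) ⟨Real.sigmoid_nonneg x, (Real.sigmoid_lt_one x).le⟩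
    have h2 := Kf_sigmoid (deriv g) x
    rw [← h2, ← sub_mul, abs_mul, abs_of_nonneg (hs0 x)]
    exact mul_le_mul_of_nonneg_right h1.le (hs0 x)
  refine ⟨p, q, hq, ?_, fun x => (hd x).trans ?_⟩
  · have hgd : ∀ x, HasDerivAt g (deriv g x) x := fun x =>
      ((hg.differentiable (by simp)) x).hasDerivAt
    have hqd : ∀ x, HasDerivAt (fun x => q.eval (Real.sigmoid x))
        (p.eval (Real.sigmoid x) * (Real.sigmoid x * (1 - Real.sigmoid x))) x := by
      intro x
      have := q.hasDerivAt (Real.sigmoid x)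
      rw [hq] at this
      exact this.comp x (Real.hasDerivAt_sigmoid x)
    have hev : g =ᶠ[atBot] fun _ => 0 := by
      have h1 := hasCompactSupport_iff_eventuallyEq.1 hc
      rw [coclosedCompact_eq_cocompact, cocompact_eq_atBot_atTop] at h1
      exact h1.filter_mono le_sup_left
    have hg0 : Tendsto g atBot (𝓝 0) := tendsto_const_nhds.congr' hev.symm
    have hq1 : Tendsto (fun x => q.eval (Real.sigmoid x)) atBot (𝓝 0) := by
      have h1 : Tendsto (fun y => q.eval y) (𝓝 0) (𝓝 (q.eval 0)) := q.continuous.tendsto 0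
      rw [hq0] at h1
      exact h1.comp Real.tendsto_sigmoid_atBot
    have key : ∀ c : ℝ, |c| = 1 → ∀ x, 0 ≤ ε * Real.sigmoid x + c * (q.eval (Real.sigmoid x) - g x) := by
      intro c hc x
      have hdd : ∀ x, HasDerivAt (fun x => ε * Real.sigmoid x + c * (q.eval (Real.sigmoid x) - g x))
          (ε * (Real.sigmoid x * (1 - Real.sigmoid x)) +
            c * (p.eval (Real.sigmoid x) * (Real.sigmoid x * (1 - Real.sigmoid x)) - deriv g x)) x := by
        intro x
        exact ((Real.hasDerivAt_sigmoid x).const_mul ε).add (((hqd x).sub (hgd x)).const_mul c)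
      have hmono : Monotone (fun x => ε * Real.sigmoid x + c * (q.eval (Real.sigmoid x) - g x)) := by
        refine monotone_of_deriv_nonneg (fun x => (hdd x).differentiableAt) fun x => ?_
        rw [(hdd x).deriv]
        have h1 := hd x
        have h2 : |c * (p.eval (Real.sigmoid x) * (Real.sigmoid x * (1 - Real.sigmoid x)) -
            deriv g x)| ≤ ε * (Real.sigmoid x * (1 - Real.sigmoid x)) := by
          rw [abs_mul, hc, one_mul]; exact h1
        linarith [(abs_le.1 h2).1]
      refine hmono.le_of_tendsto ?_ x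
      have := (Real.tendsto_sigmoid_atBot.const_mul ε).add ((hq1.sub hg0).const_mul c)
      simpa using this
    intro x
    have h1 := key 1 (by simp) x
    have h2 := key (-1) (by simp) x
    have h3 : ε * Real.sigmoid x ≤ ε := by
      nlinarith [Real.sigmoid_lt_one x]
    rw [abs_le]
    constructor <;> linarith
  · nlinarith [hs1 x]

end Pool.Agent.Helper70.AB
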