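import Pool.Agent.Helper24.AB.AN.Goals

/-! # Project AB (MP_1ef41b_an), packet WEYL: the kernels `k_δ = ∂̄(X(|s|²/δ²)/(π s))` -/

open MeasureTheory Set Filter Topology
open scoped ContDiff

noncomputable section

namespace Pool.Agent.Helper70.AB

open Pool.Agent.Helper24.AB

/-- smooth step: `0` for `t ≤ 1/2`, `1` for `t ≥ 1` -/
def X (t : ℝ) : ℝ := Real.smoothTransition (2 * t - 1)

theorem X_smooth : ContDiff ℝ ∞ X := by
  unfold X
  have := Real.smoothTransition.contDiff (n := ⊤)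
  exact this.comp (by fun_prop)

theorem X_zero {t : ℝ} (ht : t ≤ 1 / 2) : X t = 0 :=
  Real.smoothTransition.zero_of_nonpos (by linarith)

theorem X_one {t : ℝ} (ht : 1 ≤ t) : X t = 1 :=
  Real.smoothTransition.one_of_one_le (by linarith)

theorem X_mono : Monotone X := by
  intro s t hst
  exact Real.smoothTransition.monotone (by linarith)

theorem X'_smooth : ContDiff ℝ ∞ (deriv X) := (contDiff_infty_iff_deriv.1 X_smooth).2

theorem X'_nonneg (t : ℝ) : 0 ≤ deriv X t := X_mono.deriv_nonneg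

theorem X'_zero_of_lt {t : ℝ} (ht : t < 1 / 2) : deriv X t = 0 := by
  have h : X =ᶠ[𝓝 t] fun _ => 0 := by
    filter_upwards [Iio_mem_nhds ht] with s hs
    exact X_zero (le_of_lt hs)
  rw [h.deriv_eq]
  simp

theorem X'_zero_of_gt {t : ℝ} (ht : 1 < t) : deriv X t = 0 := by
  have h : X =ᶠ[𝓝 t] fun _ => 1 := by
    filter_upwards [Ioi_mem_nhds ht] with s hs
    exact X_one (le_of_lt hs)
  rw [h.deriv_eq]
  simp

/-- the mollified Cauchy kernel -/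
def Cd (δ : ℝ) (s : ℂ) : ℂ := (X (‖s‖ ^ 2 / δ ^ 2) : ℂ) * (Real.pi * s)⁻¹

/-- the radial mollifier -/
def kd (δ : ℝ) (s : ℂ) : ℝ := deriv X (‖s‖ ^ 2 / δ ^ 2) / (Real.pi * δ ^ 2)

theorem nsq_smooth : ContDiff ℝ ∞ (fun s : ℂ => ‖s‖ ^ 2) := contDiff_norm_sq ℝ

theorem kd_smooth (δ : ℝ) : ContDiff ℝ ∞ (kd δ) := by
  unfold kd
  have h1 : ContDiff ℝ ∞ (fun s : ℂ => ‖s‖ ^ 2 / δ ^ 2) := nsq_smooth.div_const _
  exact (X'_smooth.comp h1).div_const _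

theorem kd_nonneg (δ : ℝ) (s : ℂ) : 0 ≤ kd δ s := by
  unfold kd
  exact div_nonneg (X'_nonneg _) (by positivity)

theorem kd_zero {δ : ℝ} (hδ : 0 < δ) {s : ℂ} (hs : δ < ‖s‖) : kd δ s = 0 := by
  unfold kd
  rw [X'_zero_of_gt, zero_div]
  rw [lt_div_iff₀ (by positivity), one_mul]
  exact pow_lt_pow_left₀ hs hδ.le (by norm_num)

theorem kd_supp {δ : ℝ} (hδ : 0 < δ) : Function.support (kd δ) ⊆ Metric.closedBall 0 δ := by
  intro s hs
  rw [mem_closedBall_zero_iff]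
  by_contra h
  push Not at h
  exact hs (kd_zero hδ h)

theorem kd_tsupp {δ : ℝ} (hδ : 0 < δ) : tsupport (kd δ) ⊆ Metric.closedBall 0 δ :=
  closure_minimal (kd_supp hδ) Metric.isClosed_closedBall

theorem kd_cs {δ : ℝ} (hδ : 0 < δ) : HasCompactSupport (kd δ) :=
  (isCompact_closedBall (0 : ℂ) δ).of_isClosed_subset (isClosed_tsupport _) (kd_tsupp hδ)

theorem kd_scale {δ : ℝ} (hδ : 0 < δ) (s : ℂ) : kd δ s = (δ ^ 2)⁻¹ * kd 1 (δ⁻¹ • s) := by
  unfold kd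
  rw [norm_smul, Real.norm_of_nonneg (by positivity)]
  have h : (δ⁻¹ * ‖s‖) ^ 2 / 1 ^ 2 = ‖s‖ ^ 2 / δ ^ 2 := by
    field_simp
  rw [h]
  field_simp

theorem kd_int_one : ∫ s, kd 1 s = 1 := by
  have h1 : ∫ s : ℂ, kd 1 s = Module.finrank ℝ ℂ • (volume : Measure ℂ).real (Metric.ball 0 1) •
      ∫ y in Ioi (0 : ℝ), y ^ (Module.finrank ℝ ℂ - 1) • (deriv X (y ^ 2 / 1 ^ 2) / (Real.pi * 1 ^ 2)) :=
    integral_fun_norm_addHaar (volume : Measure ℂ)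
      (fun r => deriv X (r ^ 2 / 1 ^ 2) / (Real.pi * 1 ^ 2))
  rw [h1, Complex.finrank_real_complex]
  have h2 : (volume : Measure ℂ).real (Metric.ball 0 1) = Real.pi := by
    rw [Measure.real, Complex.volume_ball]
    simp
  rw [h2]
  have h3 : ∫ y in Ioi (0 : ℝ), y ^ (2 - 1) • (deriv X (y ^ 2 / 1 ^ 2) / (Real.pi * 1 ^ 2)) =
      ∫ y in Ioi (0 : ℝ), (2 * Real.pi)⁻¹ * (deriv X (y ^ 2) * (2 * y)) := by
    refine integral_congr_ae (Eventually.of_forall fun y => ?_)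
    have := Real.pi_pos
    simp only [smul_eq_mul]
    field_simp
    ring
  rw [h3, integral_const_mul]
  have hd : ∀ y : ℝ, HasDerivAt (fun y => X (y ^ 2)) (deriv X (y ^ 2) * (2 * y)) y := by
    intro y
    have h4 : HasDerivAt X (deriv X (y ^ 2)) (y ^ 2) :=
      ((X_smooth.differentiable (by simp)) _).hasDerivAt
    have h5 : HasDerivAt (fun y : ℝ => y ^ 2) (2 * y) y := by
      simpa using hasDerivAt_pow 2 y
    exact HasDerivAt.comp (h := fun y : ℝ => y ^ 2) (h₂ := X) y h4 h5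
  have h6 : ∫ y in Ioi (0 : ℝ), deriv X (y ^ 2) * (2 * y) = 1 - X ((0 : ℝ) ^ 2) := by
    refine integral_Ioi_of_hasDerivAt_of_nonneg' (g := fun y => X (y ^ 2))
      (g' := fun y => deriv X (y ^ 2) * (2 * y)) (a := 0) (l := 1) ?_ ?_ ?_
    · intro y _
      exact hd y
    · intro y hy
      exact mul_nonneg (X'_nonneg _) (by linarith [mem_Ioi.1 hy])
    · refine tendsto_const_nhds.congr' ?_
      filter_upwards [eventually_ge_atTop (1 : ℝ)] with y hy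
      exact (X_one (by nlinarith)).symm
  rw [h6, X_zero (by norm_num)]
  have := Real.pi_pos
  simp only [smul_eq_mul, nsmul_eq_mul]
  push_cast
  field_simp
  ring

theorem kd_int {δ : ℝ} (hδ : 0 < δ) : ∫ s, kd δ s = 1 := by
  simp_rw [kd_scale hδ]
  rw [integral_const_mul, Measure.integral_comp_inv_smul, Complex.finrank_real_complex,
    kd_int_one, smul_eq_mul, mul_one, abs_of_pos (by positivity)]
  field_simp

theorem Cd_near_zero (δ : ℝ) : Cd δ =ᶠ[𝓝 0] fun _ => 0 := by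
  have h : ∀ᶠ s : ℂ in 𝓝 0, ‖s‖ ^ 2 / δ ^ 2 < 1 / 2 := by
    have hc : ContinuousAt (fun s : ℂ => ‖s‖ ^ 2 / δ ^ 2) 0 := by fun_prop
    exact hc.eventually (gt_mem_nhds (by simp))
  filter_upwards [h] with s hs
  unfold Cd
  rw [X_zero hs.le]
  simp

theorem Cd_smooth (δ : ℝ) : ContDiff ℝ ∞ (Cd δ) := by
  rw [contDiff_iff_contDiffAt]
  intro s
  by_cases hs : s = 0
  · rw [hs]
    exact contDiffAt_const.congr_of_eventuallyEq (Cd_near_zero δ)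
  · unfold Cd
    refine ContDiffAt.mul ?_ ?_
    · have h1 : ContDiff ℝ ∞ (fun s : ℂ => X (‖s‖ ^ 2 / δ ^ 2)) :=
        X_smooth.comp (nsq_smooth.div_const _)
      exact (Complex.ofRealCLM.contDiff.comp h1).contDiffAt
    · refine ContDiffAt.inv ?_ ?_
      · exact (contDiff_const.mul contDiff_id).contDiffAt
      · simp [Real.pi_ne_zero, hs]

theorem nsqd_hasFDerivAt (δ : ℝ) (s : ℂ) :
    ∃ L : ℂ →L[ℝ] ℝ, HasFDerivAt (fun s : ℂ => ‖s‖ ^ 2 / δ ^ 2) L s ∧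
      L 1 = 2 * s.re / δ ^ 2 ∧ L Complex.I = 2 * s.im / δ ^ 2 := by
  have h2 := (hasStrictFDerivAt_norm_sq s).hasFDerivAt.const_mul ((δ ^ 2)⁻¹)
  have h3 : (fun s : ℂ => (δ ^ 2)⁻¹ * ‖s‖ ^ 2) = fun s => ‖s‖ ^ 2 / δ ^ 2 := by
    funext s; ring
  rw [h3] at h2
  refine ⟨_, h2, ?_, ?_⟩
  · simp [Complex.inner]
    ring
  · simp [Complex.inner]
    ring

theorem Xn_hasFDerivAt (δ : ℝ) (s : ℂ) :
    ∃ L : ℂ →L[ℝ] ℂ, HasFDerivAt (fun s : ℂ => ((X (‖s‖ ^ 2 / δ ^ 2) : ℝ) : ℂ)) L s ∧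
      L 1 = ((deriv X (‖s‖ ^ 2 / δ ^ 2) * (2 * s.re / δ ^ 2) : ℝ) : ℂ) ∧
      L Complex.I = ((deriv X (‖s‖ ^ 2 / δ ^ 2) * (2 * s.im / δ ^ 2) : ℝ) : ℂ) := by
  obtain ⟨L, hL, h1, h2⟩ := nsqd_hasFDerivAt δ s
  have h4 : HasDerivAt X (deriv X (‖s‖ ^ 2 / δ ^ 2)) (‖s‖ ^ 2 / δ ^ 2) :=
    ((X_smooth.differentiable (by simp)) _).hasDerivAt
  have h5 := HasDerivAt.comp_hasFDerivAt (h₂ := X) (f := fun s : ℂ => ‖s‖ ^ 2 / δ ^ 2) s h4 hL
  have h6 := (Complex.ofRealCLM.hasFDerivAt (x := X (‖s‖ ^ 2 / δ ^ 2))).comp s h5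
  refine ⟨_, h6, ?_, ?_⟩
  · simp [h1]
  · simp [h2]

theorem Cd_dzb {δ : ℝ} (hδ : 0 < δ) (s : ℂ) : dzb (Cd δ) s = (kd δ s : ℂ) := by
  by_cases hs : s = 0
  · rw [hs]
    have h1 : kd δ 0 = 0 := by
      unfold kd
      rw [X'_zero_of_lt (by simp), zero_div]
    rw [h1]
    unfold dzb dS dT
    rw [(Cd_near_zero δ).fderiv_eq]
    simp
  · have hpi := Real.pi_ne_zero
    obtain ⟨L, hL, hL1, hL2⟩ := Xn_hasFDerivAt δ s
    have hg : HasFDerivAt (fun s : ℂ => (Real.pi * s : ℂ)⁻¹)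
        (((ContinuousLinearMap.toSpanSingleton ℂ
          (-(Real.pi * 1 : ℂ) / (Real.pi * s) ^ 2)).restrictScalars ℝ)) s := by
      have h1 : HasDerivAt (fun s : ℂ => (Real.pi * s : ℂ)⁻¹)
          (-(Real.pi * 1 : ℂ) / (Real.pi * s) ^ 2) s :=
        ((hasDerivAt_id s).const_mul (Real.pi : ℂ)).inv (by simp [hpi, hs])
      exact h1.hasFDerivAt.restrictScalars ℝ
    have h5 : fderiv ℝ (Cd δ) s = _ := (hL.mul hg).fderiv
    have hpi' : (Real.pi : ℂ) ≠ 0 := by exact_mod_cast hpi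
    have hδ' : (δ : ℂ) ≠ 0 := by exact_mod_cast hδ.ne'
    have e3 : ((s.re : ℂ) + Complex.I * s.im) = s := by
      rw [mul_comm]; exact Complex.re_add_im s
    have e4 : Complex.I * Complex.I = -1 := Complex.I_mul_I
    unfold dzb dS dT kd
    rw [h5]
    simp only [add_apply, smul_apply,
      ContinuousLinearMap.coe_restrictScalars',
      ContinuousLinearMap.toSpanSingleton_apply, smul_eq_mul, hL1, hL2]
    generalize (deriv X (‖s‖ ^ 2 / δ ^ 2)) = D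
    generalize (X (‖s‖ ^ 2 / δ ^ 2)) = X0
    push_cast
    have e5 : (D : ℂ) / (Real.pi * δ ^ 2) = (D / (Real.pi * δ ^ 2 * s)) *
        ((s.re : ℂ) + Complex.I * s.im) := by
      rw [e3]
      field_simp
    rw [e5]
    have e6 : Complex.I ^ 2 = -1 := Complex.I_sq
    field_simp
    ring_nf
    rw [e6]
    ring

theorem Cd_sub_zero {δ ε : ℝ} (hδ : 0 < δ) (hε : 0 < ε) {s : ℂ} (hs : max δ ε < ‖s‖) :
    Cd δ s - Cd ε s = 0 := by
  unfold Cd
  have h1 : 1 ≤ ‖s‖ ^ 2 / δ ^ 2 := by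
    rw [le_div_iff₀ (by positivity), one_mul]
    exact pow_le_pow_left₀ hδ.le (le_trans (le_max_left _ _) hs.le) 2
  have h2 : 1 ≤ ‖s‖ ^ 2 / ε ^ 2 := by
    rw [le_div_iff₀ (by positivity), one_mul]
    exact pow_le_pow_left₀ hε.le (le_trans (le_max_right _ _) hs.le) 2
  rw [X_one h1, X_one h2, sub_self]

theorem kd_bdd : ∃ M : ℝ, 0 ≤ M ∧ ∀ δ : ℝ, 0 < δ → ∀ s, kd δ s ≤ M / δ ^ 2 := by
  obtain ⟨M, hM⟩ := (kd_smooth 1).continuous.bounded_above_of_compact_support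
    (kd_cs one_pos)
  refine ⟨M, le_trans (norm_nonneg _) (hM 0), fun δ hδ s => ?_⟩
  rw [kd_scale hδ, div_eq_inv_mul]
  refine mul_le_mul_of_nonneg_left ?_ (by positivity)
  exact (le_abs_self _).trans (hM _)

end Pool.Agent.Helper70.AB
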