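import Pool.Agent.Helper24.AB.PP.Goals

/-! # Project AB (MP_1ef41b_an): the Laplacian `lapC` and the Laplacian of Mathlib -/

open MeasureTheory Set Filter Topology
open scoped ContDiff

noncomputable section

namespace Pool.Agent.Helper70.AB

open Pool.Agent.Helper24.AB

theorem two_le_inf : (2 : WithTop ℕ∞) ≤ ∞ := by
  have : ((2 : ℕ∞) : WithTop ℕ∞) ≤ ((⊤ : ℕ∞) : WithTop ℕ∞) := WithTop.coe_le_coe.2 le_top
  exact this

theorem lapC_eq {f : ℂ → ℝ} {w : ℂ} (h : ContDiffAt ℝ 2 f w) :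
    lapC f w = Laplacian.laplacian f w := by
  have hd : DifferentiableAt ℝ (fderiv ℝ f) w :=
    (h.fderiv_right (m := 1) (by norm_num)).differentiableAt (by simp)
  have h1 : ∀ v : ℂ, fderiv ℝ (fun w => fderiv ℝ f w v) w v = fderiv ℝ (fderiv ℝ f) w v v := by
    intro v
    have h2 : HasFDerivAt (fun w => fderiv ℝ f w v) _ w :=
      hd.hasFDerivAt.clm_apply (hasFDerivAt_const v w)
    rw [h2.fderiv]
    simp
  rw [InnerProductSpace.laplacian_eq_iteratedFDeriv_complexPlane]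
  simp only [iteratedFDeriv_two_apply]
  unfold lapC
  have e1 : dS (dS f) w = fderiv ℝ (fderiv ℝ f) w 1 1 := h1 1
  have e2 : dT (dT f) w = fderiv ℝ (fderiv ℝ f) w Complex.I Complex.I := h1 Complex.I
  rw [e1, e2]
  simp

theorem lapC_congr {f g : ℂ → ℝ} {w : ℂ} (h : f =ᶠ[𝓝 w] g) : lapC f w = lapC g w := by
  have h1 : ∀ v : ℂ, (fun w => fderiv ℝ f w v) =ᶠ[𝓝 w] fun w => fderiv ℝ g w v := by
    intro v
    filter_upwards [h.fderiv (𝕜 := ℝ)] with x hx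
    rw [hx]
  unfold lapC
  have e1 : dS (dS f) w = dS (dS g) w := by
    show fderiv ℝ (dS f) w 1 = fderiv ℝ (dS g) w 1
    rw [(h1 1).fderiv_eq (f₁ := dS f) (f := dS g)]
  have e2 : dT (dT f) w = dT (dT g) w := by
    show fderiv ℝ (dT f) w Complex.I = fderiv ℝ (dT g) w Complex.I
    rw [(h1 Complex.I).fderiv_eq (f₁ := dT f) (f := dT g)]
  rw [e1, e2]

theorem lapC_add {f g : ℂ → ℝ} {w : ℂ} (hf : ContDiffAt ℝ 2 f w) (hg : ContDiffAt ℝ 2 g w) :
    lapC (fun w => f w + g w) w = lapC f w + lapC g w := by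
  rw [lapC_eq hf, lapC_eq hg, lapC_eq (hf.add hg)]
  exact hf.laplacian_add hg

theorem lapC_log_norm {f : ℂ → ℂ} {w : ℂ} (hf : AnalyticAt ℂ f w) (h0 : f w ≠ 0) :
    lapC (fun w => Real.log ‖f w‖) w = 0 := by
  have h := hf.harmonicAt_log_norm h0
  rw [lapC_eq h.1]
  exact h.2.eq_of_nhds

theorem smooth_log_norm {f : ℂ → ℂ} {w : ℂ} (hf : AnalyticAt ℂ f w) (h0 : f w ≠ 0) :
    ContDiffAt ℝ ∞ (fun w => Real.log ‖f w‖) w := by
  have h1 : ContDiffAt ℝ ∞ f w := (hf.contDiffAt (n := ∞)).restrict_scalars ℝ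
  exact (h1.norm ℝ h0).log (norm_ne_zero_iff.2 h0)

end Pool.Agent.Helper70.AB
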